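import Pool.Agent.L0h10.RQ.Idem
import Pool.Agent.N996.BP.Core
import Pool.Agent.N996.FP.Lie
import Pool.Agent.L0h10.TS.Arr

/-!
# Tate arrays and algebraic arrays: the Lie algebras
-/

set_option linter.unusedSectionVars false

namespace Pool.Agent.L0h10.RQ

open Matrix ComplexConjugate
open Pool.Agent.N996.BP Pool.Agent.N996.FP
open Pool.Agent.L0h10.TS (ar2 ar2_inj dk_ar2 kp_ar2 dk_rei dk_empty dk_mulVec_apply)

variable {ι : Type} [Fintype ι] [DecidableEq ι]

/-- The complex span of the rational family. -/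
def AC (A : ∀ n : ℕ, Submodule ℚ ((Fin (n + 1) → ι) → ℚ)) (κ : Type) :
    Submodule ℂ ((κ → ι) → ℂ) := Submodule.span ℂ (ca '' (AQ A κ : Set ((κ → ι) → ℚ)))

/-- The matrices which kill the arrays of the family `T`. -/
def LT (T : ∀ n : ℕ, Submodule ℂ ((Fin (n + 1) → ι) → ℂ)) : Submodule ℂ (Matrix ι ι ℂ) where
  carrier := {y | ∀ n, ∀ c ∈ T n, dk (Fin (n + 1)) y *ᵥ c = 0}
  add_mem' {x y} hx hy n c hc := by
    have h1 : dk (Fin (n + 1)) (x + y) = dk (Fin (n + 1)) x + dk (Fin (n + 1)) y :=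
      (dkL (Fin (n + 1))).map_add x y
    rw [h1, Matrix.add_mulVec, hx n c hc, hy n c hc, add_zero]
  zero_mem' n c _ := by
    have h1 : dk (Fin (n + 1)) (0 : Matrix ι ι ℂ) = 0 := (dkL (Fin (n + 1))).map_zero
    rw [h1, Matrix.zero_mulVec]
  smul_mem' r x hx n c hc := by
    have h1 : dk (Fin (n + 1)) (r • x) = r • dk (Fin (n + 1)) x := (dkL (Fin (n + 1))).map_smul r x
    rw [h1, Matrix.smul_mulVec, hx n c hc, smul_zero]

/-- The matrices which kill the arrays of the rational family. -/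
def LA (A : ∀ n : ℕ, Submodule ℚ ((Fin (n + 1) → ι) → ℚ)) : Submodule ℂ (Matrix ι ι ℂ) where
  carrier := {y | ∀ (κ : Type) [Fintype κ] [DecidableEq κ], ∀ a ∈ AQ A κ, dk κ y *ᵥ ca a = 0}
  add_mem' {x y} hx hy κ _ _ a ha := by
    have h1 : dk κ (x + y) = dk κ x + dk κ y := (dkL κ).map_add x y
    rw [h1, Matrix.add_mulVec, hx κ a ha, hy κ a ha, add_zero]
  zero_mem' κ _ _ a _ := by
    have h1 : dk κ (0 : Matrix ι ι ℂ) = 0 := (dkL κ).map_zero
    rw [h1, Matrix.zero_mulVec]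
  smul_mem' c x hx κ _ _ a ha := by
    have h1 : dk κ (c • x) = c • dk κ x := (dkL κ).map_smul c x
    rw [h1, Matrix.smul_mulVec, hx κ a ha, smul_zero]

variable {H : HData ι} {A : ∀ n : ℕ, Submodule ℚ ((Fin (n + 1) → ι) → ℚ)}
  {T : ∀ n : ℕ, Submodule ℂ ((Fin (n + 1) → ι) → ℂ)}

lemma AC_of {κ : Type} {a : (κ → ι) → ℚ} (ha : a ∈ AQ A κ) : ca a ∈ AC A κ :=
  Submodule.subset_span ⟨a, ha, rfl⟩

lemma AC_ind {κ : Type} {P : ((κ → ι) → ℂ) → Prop} (h : ∀ a ∈ AQ A κ, P (ca a)) (h0 : P 0)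
    (hadd : ∀ x y, P x → P y → P (x + y)) (hsmul : ∀ (c : ℂ) x, P x → P (c • x))
    {x : (κ → ι) → ℂ} (hx : x ∈ AC A κ) : P x := by
  induction hx using Submodule.span_induction with
  | mem x hx => obtain ⟨a, ha, rfl⟩ := hx; exact h a ha
  | zero => exact h0
  | add x y _ _ hx hy => exact hadd _ _ hx hy
  | smul d x _ hx => exact hsmul _ _ hx

lemma kill_AC {y : Matrix ι ι ℂ} (hy : y ∈ LA A) {κ : Type} [Fintype κ] [DecidableEq κ]
    {c : (κ → ι) → ℂ} (hc : c ∈ AC A κ) : dk κ y *ᵥ c = 0 := by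
  refine AC_ind (P := fun c => dk κ y *ᵥ c = 0) (fun a ha => hy κ a ha) (Matrix.mulVec_zero _)
    (fun a b ha hb => by rw [Matrix.mulVec_add, ha, hb, add_zero])
    (fun r a ha => by rw [Matrix.mulVec_smul, ha, smul_zero]) hc

/-- The matrix `g` fixes the family. -/
def FixA (A : ∀ n : ℕ, Submodule ℚ ((Fin (n + 1) → ι) → ℚ)) (g : Matrix ι ι ℂ) : Prop :=
  ∀ (κ : Type) [Fintype κ] [DecidableEq κ], ∀ a ∈ AQ A κ, kp κ g *ᵥ ca a = ca a

lemma FixA.ac {g : Matrix ι ι ℂ} (hg : FixA A g) {κ : Type} [Fintype κ] [DecidableEq κ]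
    {c : (κ → ι) → ℂ} (hc : c ∈ AC A κ) : kp κ g *ᵥ c = c := by
  refine AC_ind (P := fun c => kp κ g *ᵥ c = c) (fun a ha => hg κ a ha) (Matrix.mulVec_zero _)
    (fun a b ha hb => by rw [Matrix.mulVec_add, ha, hb])
    (fun r a ha => by rw [Matrix.mulVec_smul, ha]) hc

lemma FixA.inv {g g' : Matrix ι ι ℂ} (hg : FixA A g) (h : g' * g = 1) : FixA A g' := by
  intro κ _ _ a ha
  conv_lhs => rw [← hg κ a ha]
  rw [Matrix.mulVec_mulVec, ← kp_mul, h, kp_one, Matrix.one_mulVec]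

/-- The Weil operator fixes the family. -/
lemma fixA_C (hA : RFam H A) : FixA A (cR H.D.C) := by
  intro κ _ _ a ha
  rw [cR_C]
  exact hA.leQ ha _ Complex.I_ne_zero

lemma C_Ci : cR H.D.C * cR H.D.Ci = 1 := by rw [← cR_mul, H.D.hC, cR_one]

lemma Ci_C : cR H.D.Ci * cR H.D.C = 1 := by rw [← cR_mul, H.D.hC', cR_one]

lemma fixA_Ci (hA : RFam H A) : FixA A (cR H.D.Ci) := (fixA_C hA).inv Ci_C

lemma LA_br {x y : Matrix ι ι ℂ} (hx : x ∈ LA A) (hy : y ∈ LA A) : br x y ∈ LA A := by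
  intro κ _ _ a ha
  rw [dk_br, br, Matrix.sub_mulVec, ← Matrix.mulVec_mulVec, ← Matrix.mulVec_mulVec, hx κ a ha,
    hy κ a ha, Matrix.mulVec_zero, Matrix.mulVec_zero, sub_self]

/-- Conjugation by a matrix which fixes the family. -/
lemma LA_conj {g g' : Matrix ι ι ℂ} (hg : FixA A g) (h : g' * g = 1) {x : Matrix ι ι ℂ}
    (hx : x ∈ LA A) : g' * x * g ∈ LA A := by
  intro κ _ _ a ha
  have h' : g * g' = 1 := mul_eq_one_comm.1 h
  have h1 := kp_dk (κ := κ) h' x
  have h2 : dk κ (g' * x * g) = kp κ g' * dk κ x * kp κ g := by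
    rw [h1, Matrix.mul_assoc (dk κ _), ← kp_mul, h, kp_one, Matrix.mul_one]
  rw [h2, ← Matrix.mulVec_mulVec, ← Matrix.mulVec_mulVec, hg κ a ha, hx κ a ha,
    Matrix.mulVec_zero]

lemma dk_map_conj (κ : Type) [Fintype κ] [DecidableEq κ] (z : Matrix ι ι ℂ) :
    dk κ (z.map conj) = (dk κ z).map conj := by
  ext i j
  rw [dk, dk, Matrix.sum_apply, Matrix.map_apply, Matrix.sum_apply, map_sum]
  refine Finset.sum_congr rfl fun k _ => ?_
  rw [slot_apply, slot_apply, map_mul, map_prod, Matrix.map_apply]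
  congr 1
  refine Finset.prod_congr rfl fun m _ => ?_
  rw [Matrix.one_apply]
  split_ifs <;> simp

/-- Complex conjugation. -/
lemma LA_cj {x : Matrix ι ι ℂ} (hx : x ∈ LA A) : x.map conj ∈ LA A := by
  intro κ _ _ a ha
  rw [dk_map_conj]
  funext i
  have h2 := congrArg conj (congrFun (hx κ _ ha) i)
  rw [Matrix.mulVec, dotProduct, map_sum, Pi.zero_apply, map_zero] at h2
  rw [Matrix.mulVec, dotProduct, Pi.zero_apply]
  refine Eq.trans (Finset.sum_congr rfl fun j _ => ?_) h2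
  rw [map_mul]
  congr 1
  simp [ca]

lemma LT_br {x y : Matrix ι ι ℂ} (hx : x ∈ LT T) (hy : y ∈ LT T) : br x y ∈ LT T := by
  intro n a ha
  rw [dk_br, br, Matrix.sub_mulVec, ← Matrix.mulVec_mulVec, ← Matrix.mulVec_mulVec, hx n a ha,
    hy n a ha, Matrix.mulVec_zero, Matrix.mulVec_zero, sub_self]

lemma LT_le_LA (hA : RFam H A) (h : ∀ n, ∀ a ∈ A n, ca a ∈ T n) : LT T ≤ LA A := by
  intro y hy κ _ _ a ha
  rcases isEmpty_or_nonempty κ with hκ | hκ
  · exact dk_empty y _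
  · obtain ⟨n, ⟨e⟩⟩ := RFam.exists_eqv κ
    have h1 := hy n _ (h n _ (ha n e))
    have h3 : ca (rei e a) = rei e (ca a) := rfl
    rw [h3, dk_rei] at h1
    funext w
    have h4 := congrFun h1 (w ∘ e.symm)
    rw [rei] at h4
    have h5 : (w ∘ e.symm) ∘ e = w := by
      funext k
      simp
    rw [h5] at h4
    exact h4

section Form

variable (hinv : arr (kp Unit H.Qir) ∈ AQ A (Unit ⊕ Unit))
include hinv

/-- The matrices are skew-symmetric. -/
lemma LA_skew {z : Matrix ι ι ℂ} (hz : z ∈ LA A) : z * cQ H.Qir + cQ H.Qir * zᵀ = 0 := by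
  have h1 := hz _ _ hinv
  have h0 : ca (arr (kp Unit H.Qir)) = arr (kp Unit (cQ H.Qir)) := by rw [kp_cQ]; rfl
  rw [h0] at h1
  have h2 := congrArg mat h1
  rw [mat_dk, mat_arr] at h2
  ext i j
  have h3 := congrFun (congrFun h2 fun _ => i) fun _ => j
  rw [Matrix.add_apply, Matrix.mul_apply, Matrix.mul_apply] at h3
  rw [Matrix.add_apply, Matrix.mul_apply, Matrix.mul_apply, Matrix.zero_apply]
  rw [← (Equiv.funUnique Unit ι).symm.sum_comp, ← (Equiv.funUnique Unit ι).symm.sum_comp] at h3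
  refine Eq.trans ?_ h3
  congr 1
  · refine Finset.sum_congr rfl fun t _ => ?_
    rw [dk_unit, kp_apply, Fintype.prod_unique]
    rfl
  · refine Finset.sum_congr rfl fun t _ => ?_
    rw [Matrix.transpose_apply, Matrix.transpose_apply, dk_unit, kp_apply, Fintype.prod_unique]
    rfl

lemma FixA_form {g : Matrix ι ι ℂ} (hg : FixA A g) : g * cQ H.Qir * gᵀ = cQ H.Qir := by
  have h1 := hg _ _ hinv
  have h0 : ca (arr (kp Unit H.Qir)) = arr (kp Unit (cQ H.Qir)) := by rw [kp_cQ]; rfl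
  rw [h0, kp_arr, ← kp_transpose, ← kp_mul, ← kp_mul] at h1
  have h2 := congrArg mat h1
  rw [mat_arr, mat_arr] at h2
  ext i j
  have h3 := congrFun (congrFun h2 fun _ => i) fun _ => j
  rw [kp_apply, kp_apply, Fintype.prod_unique, Fintype.prod_unique] at h3
  exact h3

end Form

lemma Q_Qi : cQ H.Qr * cQ H.Qir = 1 := by rw [← cQ_mul, H.Qr_Qir, cQ_one]

lemma Qi_Q : cQ H.Qir * cQ H.Qr = 1 := mul_eq_one_comm.1 Q_Qi

/-- The unit belongs to the family. -/
lemma uniQ' (hA : RFam H A) (huni : uni ℚ H.D.o Unit ∈ AQ A Unit)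
    (κ : Type) [Fintype κ] [DecidableEq κ] : uni ℚ H.D.o κ ∈ AQ A κ := by
  refine fin_ind (P := fun κ _ _ => uni ℚ H.D.o κ ∈ AQ A κ) ?_ ?_ ?_ κ
  · intro κ l _ _ _ _ e ih
    have h1 := hA.rei e ih
    convert h1 using 1
    ext i
    rw [uni, rei, uni]
    exact (Equiv.prod_comp e fun k => if i k = H.D.o then (1 : ℚ) else 0).symm
  · exact hA.empty _
  · intro κ _ _ ih
    have h3 := hA.tensQ ih huni
    convert h3 using 1
    ext i
    rw [uni, Fintype.prod_sum_type]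
    rfl

/-- The inverse of the form belongs to the family. -/
lemma invQ' (hA : RFam H A) (hinv : arr (kp Unit H.Qir) ∈ AQ A (Unit ⊕ Unit))
    (κ : Type) [Fintype κ] [DecidableEq κ] : arr (kp κ H.Qir) ∈ AQ A (κ ⊕ κ) := by
  refine fin_ind (P := fun κ _ _ => arr (kp κ H.Qir) ∈ AQ A (κ ⊕ κ)) ?_ ?_ ?_ κ
  · intro κ l _ _ _ _ e ih
    have h1 := hA.rei (Equiv.sumCongr e e) ih
    convert h1 using 1
    ext i
    rw [arr, rei, arr, ← kp_reindex e]
    rfl
  · exact hA.empty _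
  · intro κ _ _ ih
    let e : (κ ⊕ κ) ⊕ (Unit ⊕ Unit) ≃ (κ ⊕ Unit) ⊕ (κ ⊕ Unit) :=
      { toFun := Sum.elim (Sum.elim (fun k => Sum.inl (Sum.inl k)) fun k => Sum.inr (Sum.inl k))
          (Sum.elim (fun k => Sum.inl (Sum.inr k)) fun k => Sum.inr (Sum.inr k))
        invFun := Sum.elim (Sum.elim (fun k => Sum.inl (Sum.inl k)) fun k => Sum.inr (Sum.inl k))
          (Sum.elim (fun k => Sum.inl (Sum.inr k)) fun k => Sum.inr (Sum.inr k))
        left_inv := by rintro ((k | k) | (k | k)) <;> rfl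
        right_inv := by rintro ((k | k) | (k | k)) <;> rfl }
    have h3 := hA.rei e (hA.tensQ ih hinv)
    convert h3 using 1
    ext i
    obtain ⟨i₁, i₂, rfl⟩ : ∃ i₁ i₂, i = Sum.elim i₁ i₂ := ⟨i ∘ Sum.inl, i ∘ Sum.inr, by simp⟩
    rw [arr_elim]
    have h4 : i₁ = Sum.elim (i₁ ∘ Sum.inl) (i₁ ∘ Sum.inr) := by simp
    have h5 : i₂ = Sum.elim (i₂ ∘ Sum.inl) (i₂ ∘ Sum.inr) := by simp
    conv_lhs => rw [h4, h5]
    rw [kp_sum]
    rfl

/-- The real span is a family. -/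
lemma isFam' (hA : RFam H A) (huni : uni ℚ H.D.o Unit ∈ AQ A Unit)
    (hinv : arr (kp Unit H.Qir) ∈ AQ A (Unit ⊕ Unit)) :
    IsFam H.D (fun κ _ => AR A κ) where
  reiM κ l _ _ e a ha := by
    refine AR_ind (P := fun a => rei e a ∈ AR A l) ?_ ?_ ha
    · intro a ha c
      exact Submodule.smul_mem _ c (AR_of (hA.rei e ha))
    · intro x y hx hy
      exact Submodule.add_mem _ hx hy
  tensM κ l _ _ a b ha hb := by
    refine AR_ind (P := fun a => tens a b ∈ AR A (κ ⊕ l)) ?_ ?_ ha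
    · intro a ha c
      refine AR_ind (P := fun b => tens (c • fun i => (a i : ℝ)) b ∈ AR A (κ ⊕ l)) ?_ ?_ hb
      · intro b hb d
        have h1 : tens (c • fun i => (a i : ℝ)) (d • fun i => (b i : ℝ)) =
            (c * d) • fun i => ((tens a b) i : ℝ) := by
          ext i
          simp only [tens, Pi.smul_apply, smul_eq_mul, Rat.cast_mul]
          ring
        rw [h1]
        exact Submodule.smul_mem _ _ (AR_of (hA.tensQ ha hb))
      · intro x y hx hy
        have h1 : tens (c • fun i => (a i : ℝ)) (x + y) =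
            tens (c • fun i => (a i : ℝ)) x + tens (c • fun i => (a i : ℝ)) y := by
          ext i
          simp only [tens, Pi.add_apply]
          ring
        rw [h1]
        exact Submodule.add_mem _ hx hy
    · intro x y hx hy
      have h1 : tens (x + y) b = tens x b + tens y b := by
        ext i
        simp only [tens, Pi.add_apply]
        ring
      rw [h1]
      exact Submodule.add_mem _ hx hy
  contrM κ l _ _ _ _ a ha := by
    refine AR_ind (P := fun a => contr H.D.Q a ∈ AR A κ) ?_ ?_ ha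
    · intro a ha c
      rw [RFam.contr_cast]
      exact Submodule.smul_mem _ _ (AR_of (hA.contrQ ha))
    · intro x y hx hy
      have h1 : contr H.D.Q (x + y) = contr H.D.Q x + contr H.D.Q y := by
        ext i
        simp only [contr, Pi.add_apply, mul_add, Finset.sum_add_distrib]
      rw [h1]
      exact Submodule.add_mem _ hx hy
  fix κ _ _ a ha := by
    refine AR_ind (P := fun a => kp κ H.D.C *ᵥ a = a) ?_ ?_ ha
    · intro a ha c
      rw [Matrix.mulVec_smul]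
      congr 1
      have h1 := hA.leQ ha Complex.I Complex.I_ne_zero
      rw [← cR_C, kp_cR] at h1
      ext i
      have h2 := congrFun h1 i
      rw [Matrix.mulVec, dotProduct] at h2 ⊢
      have h3 : ((∑ j, kp κ H.D.C i j * (a j : ℝ) : ℝ) : ℂ) = (((a i : ℝ)) : ℂ) := by
        push_cast
        exact h2
      exact_mod_cast h3
    · intro x y hx hy
      rw [Matrix.mulVec_add, hx, hy]
  invM κ _ _ := by
    have h1 := AR_of (invQ' hA hinv κ)
    convert h1 using 1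
    ext i
    rw [arr, arr, kp_apply, kp_apply, Rat.cast_prod, H.hQir]
    rfl
  uniM κ _ := by
    classical
    have h1 := AR_of (uniQ' hA huni κ)
    convert h1 using 1
    ext i
    rw [uni, uni, Rat.cast_prod]
    refine Finset.prod_congr rfl fun k _ => ?_
    split_ifs <;> simp

/-- Members of the real span as complex arrays. -/
lemma AC_of_AR {κ : Type} {a : (κ → ι) → ℝ} (ha : a ∈ AR A κ) :
    (fun i => ((a i : ℝ) : ℂ)) ∈ AC A κ := by
  refine AR_ind (P := fun a => (fun i => ((a i : ℝ) : ℂ)) ∈ AC A κ) ?_ ?_ ha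
  · intro a ha c
    have h1 : (fun i => (((c • fun i => (a i : ℝ)) i : ℝ) : ℂ)) = (c : ℂ) • ca a := by
      funext i
      simp [ca]
    rw [h1]
    exact Submodule.smul_mem _ _ (AC_of ha)
  · intro x y hx hy
    have h1 : (fun i => (((x + y) i : ℝ) : ℂ)) = (fun i => ((x i : ℝ) : ℂ)) +
        fun i => ((y i : ℝ) : ℂ) := by
      funext i
      simp
    rw [h1]
    exact Submodule.add_mem _ hx hy

end Pool.Agent.L0h10.RQ
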