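import Pool.Agent.L0h10.RQ.Dat

/-!
# The stability under the complex conjugation
-/

set_option linter.unusedSectionVars false

namespace Pool.Agent.L0h10.RQ

open Matrix ComplexConjugate ComplexOrder
open Pool.Agent.N996.BP Pool.Agent.N996.FP
open Pool.Agent.L0h10.TS (ar2 ar2_inj dk_ar2 kp_ar2 dk_rei dk_empty dk_mulVec_apply)

variable {ι : Type} [Fintype ι] [DecidableEq ι]
variable {H : HData ι} {A : ∀ n : ℕ, Submodule ℚ ((Fin (n + 1) → ι) → ℚ)}
  {T : ∀ n : ℕ, Submodule ℂ ((Fin (n + 1) → ι) → ℂ)} {w : ℕ}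

variable (H) in
/-- The hermitian form on matrices. -/
noncomputable def hf (x z : Matrix ι ι ℂ) : ℂ := (nz H x * (nz H z)ᴴ).trace

lemma hf_symm (x z : Matrix ι ι ℂ) : conj (hf H x z) = hf H z x := by
  have h1 : conj (hf H x z) = ((nz H x * (nz H z)ᴴ)ᴴ).trace :=
    (Matrix.trace_conjTranspose _).symm
  rw [h1, Matrix.conjTranspose_mul, Matrix.conjTranspose_conjTranspose, hf]

lemma hf_pos {x : Matrix ι ι ℂ} (h : hf H x x = 0) : x = 0 := by
  have h1 : nz H x = 0 := by
    rw [hf] at h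
    exact Matrix.trace_mul_conjTranspose_self_eq_zero_iff.1 h
  apply nz_inj (H := H)
  rw [h1, nz, Matrix.mul_zero, Matrix.zero_mul]

namespace Dat

variable (D : Dat H A T w)
include D

lemma hf_adj {x z : Matrix ι ι ℂ} (hz : z ∈ LA A) : hf H x z = (x * adj H z).trace := by
  rw [hf, nz_adj D.hinv hz, ← nz_mul, nz_trace]

lemma adj_adj {z : Matrix ι ι ℂ} (hz : z ∈ LA A) : adj H (adj H z) = z := by
  apply nz_inj (H := H)
  rw [← nz_adj D.hinv (adj_LA D.fam hz), ← nz_adj D.hinv hz,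
    Matrix.conjTranspose_conjTranspose]

/-- An element of the algebra which is orthogonal to the ideal commutes with it. -/
lemma orth_comm {c : Matrix ι ι ℂ} (hc : c ∈ LA A) (ho : ∀ z ∈ LT T, hf H c z = 0)
    {z : Matrix ι ι ℂ} (hz : z ∈ LT T) : c * z = z * c := by
  have h1 : br c z ∈ LT T := D.ideal hc hz
  have h2 : ∀ u ∈ LT T, hf H (br c z) u = 0 := by
    intro u hu
    have hb : br u (adj H z) ∈ LT T := by
      have h3 := D.ideal (adj_LA D.fam (D.sub hz)) hu
      have h4 : br u (adj H z) = -(br (adj H z) u) := by rw [br, br, neg_sub]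
      rw [h4]
      exact Submodule.neg_mem _ h3
    have h3 := ho _ hb
    rw [hf] at h3 ⊢
    have h4 : (nz H (br u (adj H z)))ᴴ = nz H z * (nz H u)ᴴ - (nz H u)ᴴ * nz H z := by
      rw [br, nz_sub, nz_mul, nz_mul, Matrix.conjTranspose_sub, Matrix.conjTranspose_mul,
        Matrix.conjTranspose_mul, ← nz_adj D.hinv (D.sub hz),
        Matrix.conjTranspose_conjTranspose]
    rw [h4, Matrix.mul_sub, Matrix.trace_sub, sub_eq_zero] at h3
    rw [br, nz_sub, nz_mul, nz_mul, Matrix.sub_mul, Matrix.trace_sub, sub_eq_zero,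
      Matrix.mul_assoc]
    rw [h3, ← Matrix.mul_assoc, Matrix.trace_mul_comm (nz H c * (nz H u)ᴴ), Matrix.mul_assoc]
  have h3 := hf_pos (h2 _ h1)
  rw [br, sub_eq_zero] at h3
  exact h3

/-- Such elements are central and commute with the Weil operator. -/
lemma orth_AC {c : Matrix ι ι ℂ} (hc : ∀ z ∈ LT T, c * z = z * c) :
    ar2 (c * cQ H.Qir) ∈ AC A (Fin (1 + 1)) := by
  refine D.two _ (D.gen 1 _ fun y hy _ => ?_)
  have h1 := LA_skew D.hinv (D.sub hy)
  have h2 : cQ H.Qir * yᵀ = -(y * cQ H.Qir) := by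
    rw [eq_neg_iff_add_eq_zero, add_comm]; exact h1
  rw [dk_ar2, Matrix.mul_assoc c, h2, Matrix.mul_neg, ← Matrix.mul_assoc, ← Matrix.mul_assoc,
    hc y hy, add_neg_cancel]
  rfl

lemma AC_comm {c : Matrix ι ι ℂ} (hc : ar2 (c * cQ H.Qir) ∈ AC A (Fin (1 + 1)))
    {z : Matrix ι ι ℂ} (hz : z ∈ LA A) : c * z = z * c := by
  have h1 := kill_AC hz hc
  rw [dk_ar2] at h1
  have h2 : z * (c * cQ H.Qir) + c * cQ H.Qir * zᵀ = 0 := ar2_inj h1
  have h3 : cQ H.Qir * zᵀ = -(z * cQ H.Qir) := by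
    rw [eq_neg_iff_add_eq_zero, add_comm]; exact LA_skew D.hinv hz
  rw [Matrix.mul_assoc c, h3, Matrix.mul_neg, add_neg_eq_zero] at h2
  apply D.mulQi_inj
  rw [Matrix.mul_assoc, Matrix.mul_assoc, h2]

lemma AC_C {c : Matrix ι ι ℂ} (hc : ar2 (c * cQ H.Qir) ∈ AC A (Fin (1 + 1)))
    {g : Matrix ι ι ℂ} (hg : FixA A g) : g * c = c * g := by
  have h1 := hg.ac hc
  rw [kp_ar2] at h1
  have h2 : g * (c * cQ H.Qir) * gᵀ = c * cQ H.Qir := ar2_inj h1
  have h3 := FixA_form D.hinv hg
  -- the inverse of `g`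
  obtain ⟨R, hR⟩ : ∃ R, R = cQ H.Qir * gᵀ * cQ H.Qr := ⟨_, rfl⟩
  have h6 : g * R = 1 := by
    rw [hR]
    calc g * (cQ H.Qir * gᵀ * cQ H.Qr) = (g * cQ H.Qir * gᵀ) * cQ H.Qr := by
          simp only [Matrix.mul_assoc]
      _ = 1 := by rw [h3, Qi_Q]
  have h7 : R * g = 1 := mul_eq_one_comm.1 h6
  have h8 : g * c * R = c := by
    rw [hR]
    calc g * c * (cQ H.Qir * gᵀ * cQ H.Qr) = (g * (c * cQ H.Qir) * gᵀ) * cQ H.Qr := by
          simp only [Matrix.mul_assoc]
      _ = c := by rw [h2, Matrix.mul_assoc, Qi_Q, Matrix.mul_one]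
  calc g * c = g * c * (R * g) := by rw [h7, Matrix.mul_one]
    _ = _ := by rw [← Matrix.mul_assoc, h8]

/-- **The stability under the complex conjugation.** -/
theorem stab_conj {y : Matrix ι ι ℂ} (hy : y ∈ LT T) (hi : IsInt w y) : y.map conj ∈ LT T := by
  obtain ⟨y', hy', hort⟩ := exists_dec (H := H) (LT T) (y.map conj)
  obtain ⟨c, hcdef⟩ : ∃ c, c = y.map conj - y' := ⟨_, rfl⟩
  rw [← hcdef] at hort
  have hyA := D.sub hy
  have hcA : c ∈ LA A := by
    rw [hcdef]
    exact Submodule.sub_mem _ (LA_cj hyA) (D.sub hy')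
  have hcT : ∀ z ∈ LT T, c * z = z * c := fun z hz => D.orth_comm hcA hort hz
  have hcAC := D.orth_AC hcT
  have hcen : ∀ z ∈ LA A, c * z = z * c := fun z hz => D.AC_comm hcAC hz
  have hcC : cR H.D.C * c = c * cR H.D.C := D.AC_C hcAC (fixA_C D.fam)
  -- the conjugate of `c`
  have hcj : ∀ z ∈ LA A, c.map conj * z = z * c.map conj := by
    intro z hz
    have h1 := congrArg (fun m : Matrix ι ι ℂ => m.map conj) (hcen _ (LA_cj hz))
    beta_reduce at h1
    rwa [map_mul_c, map_mul_c, map_conj_conj] at h1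
  have hcjC : cR H.D.C * c.map conj = c.map conj * cR H.D.C := by
    have h1 := congrArg (fun m : Matrix ι ι ℂ => m.map conj) hcC
    beta_reduce at h1
    rwa [map_mul_c, map_mul_c, cR_map_conj] at h1
  have hadj : adj H c = -(c.map conj) := by
    rw [adj, Matrix.mul_assoc, ← hcjC, ← Matrix.mul_assoc, Ci_C, Matrix.one_mul]
  -- `c` is zero
  have hc0 : c = 0 := by
    apply hf_pos (H := H)
    have h1 : hf H c c = -(c * c.map conj).trace := by
      rw [D.hf_adj hcA, hadj, Matrix.mul_neg, Matrix.trace_neg]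
    have h2 : (y' * c.map conj).trace = 0 := by
      have h3 := hort y' hy'
      have h4 : hf H y' c = 0 := by
        rw [← hf_symm]
        have h5 : hf H c y' = 0 := h3
        rw [h5, map_zero]
      rw [D.hf_adj hcA, hadj, Matrix.mul_neg, Matrix.trace_neg, neg_eq_zero] at h4
      exact h4
    have h3 : (c * c.map conj).trace = conj (y * c).trace := by
      have h4 : c * c.map conj = y.map conj * c.map conj - y' * c.map conj := by
        rw [← Matrix.sub_mul, ← hcdef]
      rw [h4, Matrix.trace_sub, h2, sub_zero, ← map_mul_c, Matrix.trace, Matrix.trace, map_sum]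
      rfl
    -- the trace lemma
    have h4 : conj (y * c).trace = hf H y c := by
      obtain ⟨π, hπ⟩ := hi
      have hcy : c * y = y * c := hcen y hyA
      have hcy' : adj H c * y = y * adj H c := by
        rw [hadj, Matrix.neg_mul, Matrix.mul_neg, hcj y hyA]
      have key : ∀ k ∈ Finset.Icc (-w : ℤ) w, conj (π k * c).trace = (π k * adj H c).trace := by
        intro k hk
        have e1 := hπ.comm hcy hk
        have e2 := hπ.comm hcy' hk
        have e3 := trace_idem (e := nz H (π k)) (c := nz H c)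
          (by rw [← nz_mul, hπ.mul hk hk, if_pos rfl])
          (by rw [← nz_mul, ← nz_mul, e1])
          (by rw [nz_adj D.hinv hcA, ← nz_mul, ← nz_mul, e2])
        rwa [nz_adj D.hinv hcA, ← nz_mul, ← nz_mul, nz_trace, nz_trace] at e3
      rw [D.hf_adj hcA]
      conv_lhs => rw [← hπ.eq_sum]
      conv_rhs => rw [← hπ.eq_sum]
      rw [Finset.sum_mul, Finset.sum_mul, Matrix.trace_sum, Matrix.trace_sum, map_sum]
      refine Finset.sum_congr rfl fun k hk => ?_
      rw [Matrix.smul_mul, Matrix.smul_mul, Matrix.trace_smul, Matrix.trace_smul, smul_eq_mul,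
        smul_eq_mul, map_mul, map_intCast, key k hk]
    have h5 : hf H y c = 0 := by
      rw [← hf_symm]
      have h6 : hf H c y = 0 := hort y hy
      rw [h6, map_zero]
    rw [h1, h3, h4, h5, neg_zero]
  rw [hcdef, sub_eq_zero] at hc0
  rw [hc0]
  exact hy'

end Dat

end Pool.Agent.L0h10.RQ
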