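import Pool.Agent.L0h10.RQ.Conj
import Pool.Agent.L0h10.RP.Wcw

/-!
# Tate arrays of bounded degree decide all Tate arrays: the abstract theorem
-/

set_option linter.unusedSectionVars false

namespace Pool.Agent.L0h10.RQ

open Matrix ComplexConjugate ComplexOrder
open Pool.Agent.N996.BP Pool.Agent.N996.FP
open Pool.Agent.L0h10.TS (ar2 ar2_inj dk_ar2 kp_ar2 dk_rei dk_empty dk_mulVec_apply)

variable {ι : Type} [Fintype ι] [DecidableEq ι]
variable {H : HData ι} {A : ∀ n : ℕ, Submodule ℚ ((Fin (n + 1) → ι) → ℚ)}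
  {T : ∀ n : ℕ, Submodule ℂ ((Fin (n + 1) → ι) → ℂ)} {w : ℕ}

variable (w T) in
/-- The integral elements of the Lie algebra. -/
def SS : Type := {y : Matrix ι ι ℂ // y ∈ LT T ∧ IsInt w y}

/-- The projectors. -/
noncomputable def pS (s : SS T w) : ℤ → Matrix ι ι ℂ := s.2.2.choose

lemma isPj_pS (s : SS T w) : IsPj w s.1 (pS s) := s.2.2.choose_spec

lemma kp_uni1 (x : Matrix ι ι ℂ) (o : ι) (w' : Unit → ι) :
    (dk Unit x *ᵥ uni ℂ o Unit) w' = x (w' ()) o := by
  rw [Matrix.mulVec, dotProduct, ← (Equiv.funUnique Unit ι).symm.sum_comp, Finset.sum_eq_single o]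
  · rw [dk_unit, uni]
    simp
  · intro b _ hb
    rw [uni, Finset.prod_eq_zero (Finset.mem_univ ())]
    · rw [mul_zero]
    · exact if_neg hb
  · intro h; exact absurd (Finset.mem_univ o) h

namespace Dat

variable (D : Dat H A T w)

include D in
lemma kill_o {y : Matrix ι ι ℂ} (hy : y ∈ LA A) (i : ι) : y i H.D.o = 0 := by
  have h1 := hy Unit _ D.huni
  have h2 : ca (uni ℚ H.D.o Unit) = uni ℂ H.D.o Unit := by
    funext w'
    rw [ca, uni, uni, Rat.cast_prod]
    refine Finset.prod_congr rfl fun k _ => ?_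
    split_ifs <;> simp
  rw [h2] at h1
  have h3 := congrFun h1 fun _ => i
  rwa [kp_uni1] at h3

include D in
lemma Qy {y : Matrix ι ι ℂ} (hy : y ∈ LA A) : yᵀ * cQ H.Qr = -(cQ H.Qr * y) := by
  have h1 := LA_skew D.hinv hy
  have h2 : cQ H.Qir * yᵀ = -(y * cQ H.Qir) := by
    rw [eq_neg_iff_add_eq_zero, add_comm]; exact h1
  calc yᵀ * cQ H.Qr = cQ H.Qr * (cQ H.Qir * yᵀ) * cQ H.Qr := by
        rw [← Matrix.mul_assoc, Q_Qi, Matrix.one_mul]
    _ = _ := by
        rw [h2, Matrix.mul_neg, Matrix.neg_mul, Matrix.mul_assoc, Matrix.mul_assoc, Qi_Q,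
          Matrix.mul_one]

/-- The group generated by the cocharacters. -/
noncomputable def hd : RP.HData ι where
  D := H.D
  w := w
  S := SS T w
  s0 := ⟨0, Submodule.zero_mem _, IsInt.zero w⟩
  π := pS
  h1 s := (isPj_pS s).sum
  hmul s k hk l hl := (isPj_pS s).mul hk hl
  hπQ s k hk := by
    have h0 : RP.cR H.D.Q = cQ H.Qr := cR_Q (H := H)
    rw [h0]
    have hP := isPj_pS s
    have hskew := D.Qy (D.sub s.2.1)
    -- both sides are projectors
    have h1 := hP.transpose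
    have h2 := (hP.neg.cng (Qi_Q (H := H)))
    have h3 : cQ H.Qr * -s.1 * cQ H.Qir = (s.1)ᵀ := by
      rw [Matrix.mul_neg, ← hskew, Matrix.mul_assoc, Q_Qi, Matrix.mul_one]
    rw [h3] at h2
    have h4 := h1.unique h2 hk
    rw [h4, Matrix.mul_assoc, Matrix.mul_assoc, Qi_Q, Matrix.mul_one]
  hconj s := by
    refine ⟨⟨-(s.1.map conj), Submodule.neg_mem _ (D.stab_conj s.2.1 s.2.2),
      s.2.2.cjg.neg⟩, fun k hk => ?_⟩
    have h1 := (isPj_pS s).cjg.neg
    have h2 := isPj_pS (T := T) (w := w) ⟨-(s.1.map conj),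
      Submodule.neg_mem _ (D.stab_conj s.2.1 s.2.2), s.2.2.cjg.neg⟩
    have h3 := h1.unique h2 (IsPj.neg_mem' hk)
    rw [neg_neg] at h3
    exact h3
  hCn s := by
    have hC : RP.cR H.D.C * RP.cR H.D.Ci = 1 := C_Ci (H := H)
    refine ⟨⟨RP.cR H.D.Ci * s.1 * RP.cR H.D.C, D.stabC s.2.1, s.2.2.cng hC⟩, fun k hk => ?_⟩
    have h1 := (isPj_pS s).cng hC
    have h2 := isPj_pS (T := T) (w := w)
      ⟨RP.cR H.D.Ci * s.1 * RP.cR H.D.C, D.stabC s.2.1, s.2.2.cng hC⟩
    exact h1.unique h2 hk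
  ho s t ht i := by
    have hP := isPj_pS s
    have h0 := D.kill_o (D.sub s.2.1)
    have h1 : ∀ k ∈ Finset.Icc (-w : ℤ) w, k ≠ 0 → pS s k i H.D.o = 0 := by
      intro k hk hk0
      have h2 := congrFun (congrFun (hP.right k hk) i) H.D.o
      rw [Matrix.mul_apply, Finset.sum_eq_zero fun j _ => by rw [h0 j, mul_zero],
        Matrix.smul_apply, smul_eq_mul] at h2
      rcases mul_eq_zero.1 h2.symm with h3 | h3
      · exact absurd (by exact_mod_cast h3) hk0
      · exact h3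
    have h0m : (0 : ℤ) ∈ Finset.Icc (-w : ℤ) w := by
      rw [Finset.mem_Icc]; omega
    have h2 : pS s 0 i H.D.o = if i = H.D.o then 1 else 0 := by
      have h3 := congrFun (congrFun hP.sum i) H.D.o
      rw [Matrix.sum_apply, Finset.sum_eq_single 0 (fun k hk hk0 => h1 k hk hk0)
        (fun h => absurd h0m h), Matrix.one_apply] at h3
      exact h3
    rw [RP.lt, Matrix.sum_apply, Finset.sum_eq_single 0]
    · rw [Matrix.smul_apply, _root_.zpow_zero, one_smul, h2]
    · intro k hk hk0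
      rw [Matrix.smul_apply, h1 k hk hk0, smul_zero]
    · intro h; exact absurd h0m h

lemma hd_D : D.hd.D = H.D := rfl

lemma Ng_eq (s : D.hd.S) : RP.Ng D.hd s = s.1 := (isPj_pS s).eq_sum

/-- The invariant arrays are the Tate arrays. -/
lemma mem_BB {n : ℕ} {c : (Fin (n + 1) → ι) → ℂ} : c ∈ RP.BB D.hd (Fin (n + 1)) ↔ c ∈ T n := by
  constructor
  · intro hc
    refine D.gen n c fun y hy hi => ?_
    have h1 := RP.Ng_mem (H := D.hd) ⟨y, hy, hi⟩ (Fin (n + 1)) c hc
    have h2 : RP.Ng D.hd ⟨y, hy, hi⟩ = y := D.Ng_eq ⟨y, hy, hi⟩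
    rw [h2] at h1
    exact h1
  · intro hc
    refine RP.BB_of fun g hg => RP.fix_of_NgT (fun σ => ?_) hg
    rw [D.Ng_eq]
    exact σ.2.1 n c hc

lemma BB_rei' {κ l : Type} [Fintype κ] [DecidableEq κ] [Fintype l] [DecidableEq l] (e : κ ≃ l)
    {a : (κ → ι) → ℂ} (ha : a ∈ RP.BB D.hd κ) : rei e a ∈ RP.BB D.hd l := by
  intro σ t ht
  have h1 := ha σ t ht
  rw [RP.ca_eq] at h1 ⊢
  rw [kp_rei, h1]

/-- The invariant arrays of small degree belong to the span of the rational family. -/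
lemma BB_AC {N : ℕ} (hN : ∀ n, n + 1 ≤ N → ∀ c ∈ T n, c ∈ AC A (Fin (n + 1))) {κ : Type}
    [Fintype κ] [DecidableEq κ] (hκ : Fintype.card κ ≤ N) {c : (κ → ι) → ℂ}
    (hc : c ∈ RP.BB D.hd κ) : c ∈ AC A κ := by
  rcases isEmpty_or_nonempty κ with hκ' | hκ'
  · have h1 : c = (c fun k => (IsEmpty.false k).elim) • ca (fun _ => (1 : ℚ)) := by
      funext i
      rw [Pi.smul_apply, smul_eq_mul, ca, Rat.cast_one, mul_one]
      congr 1
      funext k
      exact (IsEmpty.false k).elim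
    rw [h1]
    exact Submodule.smul_mem _ _ (AC_of (D.fam.empty _))
  · obtain ⟨n, ⟨e⟩⟩ := RFam.exists_eqv κ
    have h1 := D.mem_BB.1 (D.BB_rei' e hc)
    have h2 : n + 1 ≤ N := by
      rw [Fintype.card_congr e, Fintype.card_fin] at hκ
      exact hκ
    have h3 := hN n h2 _ h1
    have h4 : c = rei e.symm (rei e c) := by
      rw [rei_rei, Equiv.self_trans_symm]
      rfl
    rw [h4]
    refine AC_ind (P := fun x => rei e.symm x ∈ AC A κ) (fun a ha => ?_) ?_ ?_ ?_ h3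
    · exact AC_of (D.fam.rei e.symm ha)
    · exact Submodule.zero_mem _
    · intro x y hx hy
      exact Submodule.add_mem _ hx hy
    · intro r x hx
      exact Submodule.smul_mem _ r hx

/-- **The abstract theorem.** -/
theorem all {N : ℕ} (hN : ∀ n, n + 1 ≤ N → ∀ c ∈ T n, c ∈ AC A (Fin (n + 1)))
    (key : ∀ g : Matrix ι ι ℂ, (∀ (κ : Type) [Fintype κ] [DecidableEq κ], Fintype.card κ ≤ N →
      RP.Fixes D.hd g κ) → g ∈ RP.So D.hd) (n : ℕ) : ∀ c ∈ T n, c ∈ AC A (Fin (n + 1)) := by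
  classical
  -- matrices which fix the family
  have hfix : ∀ g, FixA A g → ∀ c ∈ T n, kp (Fin (n + 1)) g *ᵥ c = c := by
    intro g hg c hc
    have h1 : g ∈ RP.So D.hd := key g fun κ _ _ hκ a ha => hg.ac (D.BB_AC hN hκ ha)
    exact h1 (Fin (n + 1)) c (D.mem_BB.2 hc)
  have hfam := isFam' D.fam D.huni D.hinv
  -- real arrays
  have hreal : ∀ h : (Fin (n + 1) → ι) → ℝ, (fun i => ((h i : ℝ) : ℂ)) ∈ T n →
      h ∈ AR A (Fin (n + 1)) := by
    intro h hh
    refine mem_of_fixed (κ := Fin (n + 1)) hfam h ?_ ?_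
    · have h1 := hfix _ (fixA_C D.fam) _ hh
      rw [kp_cR] at h1
      ext i
      have h2 := congrFun h1 i
      rw [Matrix.mulVec, dotProduct] at h2 ⊢
      have h3 : ((∑ j, kp (Fin (n + 1)) H.D.C i j * h j : ℝ) : ℂ) = ((h i : ℝ) : ℂ) := by
        push_cast
        exact h2
      exact_mod_cast h3
    · intro g hg
      refine hfix g (fun κ _ _ a ha => ?_) _ hh
      have h4 := hg κ _ (AR_of ha)
      simp only [Complex.ofReal_ratCast] at h4
      exact h4
  intro c hc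
  have hcj : (fun i => conj (c i)) ∈ T n := D.mem_BB.1 (RP.BB_conj D.hd (D.mem_BB.2 hc))
  have h1 : (fun i => (((c i).re : ℝ) : ℂ)) ∈ T n := by
    have h2 : (fun i => (((c i).re : ℝ) : ℂ)) = (2 : ℂ)⁻¹ • (c + fun i => conj (c i)) := by
      funext i
      rw [Pi.smul_apply, Pi.add_apply, smul_eq_mul, Complex.add_conj]
      push_cast
      ring
    rw [h2]
    exact Submodule.smul_mem _ _ (Submodule.add_mem _ hc hcj)
  have h2 : (fun i => (((c i).im : ℝ) : ℂ)) ∈ T n := by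
    have h3 : (fun i => (((c i).im : ℝ) : ℂ)) =
        (2 * Complex.I : ℂ)⁻¹ • (c - fun i => conj (c i)) := by
      funext i
      rw [Pi.smul_apply, Pi.sub_apply, smul_eq_mul, Complex.sub_conj]
      have : (2 * Complex.I : ℂ) ≠ 0 := mul_ne_zero two_ne_zero Complex.I_ne_zero
      field_simp
      push_cast
      ring
    rw [h3]
    exact Submodule.smul_mem _ _ (Submodule.sub_mem _ hc hcj)
  have h3 : c = (fun i => (((c i).re : ℝ) : ℂ)) + Complex.I • fun i => (((c i).im : ℝ) : ℂ) := by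
    funext i
    rw [Pi.add_apply, Pi.smul_apply, smul_eq_mul, mul_comm, Complex.re_add_im]
  rw [h3]
  exact Submodule.add_mem _ (AC_of_AR (hreal _ h1))
    (Submodule.smul_mem _ _ (AC_of_AR (hreal _ h2)))

end Dat

end Pool.Agent.L0h10.RQ
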