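import Pool.Agent.L0h10.RQ.Prj2
import Pool.Agent.L0h10.RQ.Main

/-!
# The bounded power theorem in coordinates
-/

set_option linter.unusedSectionVars false

namespace Pool.Agent.L0h10.RQ

open Matrix
open Pool.Agent.N996.BP Pool.Agent.N996.FP
open Pool.Agent.L0h10.TS (ar2 ar2_inj ar2_surj dk_ar2 kp_ar2 dk_rei dk_empty dk_mulVec_apply GRep
  desc_sol desc_span dv dv_eq dv_map cL)

variable {ι : Type} [Fintype ι] [DecidableEq ι] {deg : ι → ℕ} {L : Type} [Field L] [CharZero L]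
  {j : L →+* ℂ} {Γ : Type*} [Group Γ] [TopologicalSpace Γ] {P : GRep deg L Γ}
  {H : HData ι} {A : ∀ n : ℕ, Submodule ℚ ((Fin (n + 1) → ι) → ℚ)}

lemma AC_rei (hA : RFam H A) {κ l : Type} (e : κ ≃ l) {c : (κ → ι) → ℂ} (hc : c ∈ AC A κ) :
    rei e c ∈ AC A l := by
  refine AC_ind (P := fun x => rei e x ∈ AC A l) (fun a ha => ?_) ?_ ?_ ?_ hc
  · exact AC_of (hA.rei e ha)
  · exact Submodule.zero_mem _
  · intro x y hx hy
    exact Submodule.add_mem _ hx hy
  · intro r x hx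
    exact Submodule.smul_mem _ r hx

/-- Descent. -/
lemma AQ_of_AC {κ : Type} [Fintype κ] [DecidableEq κ] {a : (κ → ι) → ℚ} (h : ca a ∈ AC A κ) :
    a ∈ AQ A κ := by
  have h1 := desc_span (algebraMap ℚ ℂ) (B := (AQ A κ : Set ((κ → ι) → ℚ))) (u := a) (by
    have h2 : (fun i => algebraMap ℚ ℂ (a i)) = ca a := by
      funext i
      rw [eq_ratCast]
      rfl
    have h3 : (fun b : (κ → ι) → ℚ => fun i => algebraMap ℚ ℂ (b i)) = ca := by
      funext b i
      rw [eq_ratCast]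
      rfl
    rw [h2, h3]
    exact h)
  rwa [Submodule.span_eq] at h1

/-- The situation in coordinates. -/
structure Crd (deg : ι → ℕ) (j : L →+* ℂ) (P : GRep deg L Γ) (H : HData ι)
    (A : ∀ n : ℕ, Submodule ℚ ((Fin (n + 1) → ι) → ℚ)) (w N : ℕ) : Prop where
  hd : Hom2 deg H
  fam : RFam H A
  huni : uni ℚ H.D.o Unit ∈ AQ A Unit
  le : ∀ n, ∀ a ∈ A n, ca a ∈ TT j P n
  form : ∃ Δ : OpenSubgroup Γ, InvQ j P H Δ
  ss : HasPr j P
  gen : ∀ n c, (∀ y ∈ LT (TT j P), IsInt w y → dk (Fin (n + 1)) y *ᵥ c = 0) → c ∈ TT j P n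
  hN : 4 ≤ N
  small : ∀ n, n + 1 ≤ N → ∀ c ∈ TT j P n, c ∈ AC A (Fin (n + 1))

lemma chi_ne (g : Γ) : P.χ g ≠ 0 := by
  intro h
  have h1 : P.χ g * P.χ g⁻¹ = 1 := by rw [← P.χ_mul, mul_inv_cancel, P.χ_one]
  rw [h, zero_mul] at h1
  exact zero_ne_one h1

lemma rei_arr_Unit {R : Type*} (M : Matrix (Unit → ι) (Unit → ι) R)
    (e : Unit ⊕ Unit ≃ Fin (1 + 1)) (h0 : e.symm 0 = Sum.inl ()) (h1 : e.symm 1 = Sum.inr ()) :
    rei e (arr M) = ar2 (Matrix.of fun i k => M (fun _ => i) (fun _ => k)) := by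
  funext w
  have e0 : e (Sum.inl ()) = 0 := by rw [← h0, Equiv.apply_symm_apply]
  have e1 : e (Sum.inr ()) = 1 := by rw [← h1, Equiv.apply_symm_apply]
  rw [rei, arr, ar2, Matrix.of_apply]
  congr 1
  · funext u
    change w (e (Sum.inl u)) = w 0
    rw [← e0]
  · funext u
    change w (e (Sum.inr u)) = w 1
    rw [← e1]

/-- The equivalence of the index sets. -/
def e2 : Unit ⊕ Unit ≃ Fin (1 + 1) where
  toFun := Sum.elim (fun _ => 0) fun _ => 1
  invFun := ![Sum.inl (), Sum.inr ()]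
  left_inv := by rintro (u | u) <;> rfl
  right_inv := by intro k; fin_cases k <;> rfl

variable {w N : ℕ}

theorem Crd.dat [IsTopologicalGroup Γ] (D : Crd deg j P H A w N) : Dat H A (TT j P) w where
  fam := D.fam
  huni := D.huni
  hinv := by
    obtain ⟨Δ, hQ⟩ := D.form
    have h1 := D.small 1 (by have := D.hN; omega) _ (Qi_TT D.hd hQ)
    have h2 : ar2 (cQ H.Qir) = ca (ar2 H.Qir) := rfl
    rw [h2] at h1
    have h3 := D.fam.rei e2.symm (AQ_of_AC h1)
    have h4 : rei e2.symm (ar2 H.Qir) = arr (kp Unit H.Qir) := by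
      have h5 := rei_arr_Unit (kp Unit H.Qir) e2 rfl rfl
      have h6 : (Matrix.of fun i k => kp Unit H.Qir (fun _ => i) (fun _ => k)) = H.Qir := by
        ext i k
        rw [Matrix.of_apply, kp_apply, Fintype.prod_unique]
      rw [h6] at h5
      rw [← h5, rei_rei, Equiv.self_trans_symm]
      rfl
    rwa [h4] at h3
  le := D.le
  gen := D.gen
  two c hc := D.small 1 (by have := D.hN; omega) c hc
  proj := by
    obtain ⟨Δ, hQ⟩ := D.form
    obtain ⟨F, h1, h2, h3⟩ := exists_F (j := j) (H := H) D.ss D.hd hQ chi_ne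
    refine ⟨F, h1, h2, ?_⟩
    have h4 := D.small 3 (by have := D.hN; omega) _ h3
    have h5 := AC_rei D.fam (finSumFinEquiv (m := 1 + 1) (n := 1 + 1)).symm h4
    rw [rei_rei, Equiv.self_trans_symm] at h5
    exact h5

/-- **The bounded power theorem in coordinates.** -/
theorem Crd.all [IsTopologicalGroup Γ] (D : Crd deg j P H A w N)
    (key : ∀ g : Matrix ι ι ℂ, (∀ (κ : Type) [Fintype κ] [DecidableEq κ], Fintype.card κ ≤ N →
      RP.Fixes D.dat.hd g κ) → g ∈ RP.So D.dat.hd) (n : ℕ) :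
    ∀ c ∈ TT j P n, c ∈ AC A (Fin (n + 1)) := D.dat.all D.small key n

end Pool.Agent.L0h10.RQ
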