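import Pool.Agent.L0h10.RQ.Base

/-!
# The ideal of the matrices which kill the Tate arrays
-/

set_option linter.unusedSectionVars false

namespace Pool.Agent.L0h10.RQ

open Matrix ComplexConjugate
open Pool.Agent.N996.BP Pool.Agent.N996.FP
open Pool.Agent.L0h10.TS (ar2 ar2_inj dk_ar2 kp_ar2 dk_rei dk_empty dk_mulVec_apply)

variable {ι : Type} [Fintype ι] [DecidableEq ι]

/-- The abstract situation: `A` is the family of the arrays of the algebraic classes and `T` is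
the family of the complex spans of the arrays of the Tate classes. -/
structure Dat (H : HData ι) (A : ∀ n : ℕ, Submodule ℚ ((Fin (n + 1) → ι) → ℚ))
    (T : ∀ n : ℕ, Submodule ℂ ((Fin (n + 1) → ι) → ℂ)) (w : ℕ) : Prop where
  fam : RFam H A
  huni : uni ℚ H.D.o Unit ∈ AQ A Unit
  hinv : arr (kp Unit H.Qir) ∈ AQ A (Unit ⊕ Unit)
  le : ∀ n, ∀ a ∈ A n, ca a ∈ T n
  gen : ∀ n c, (∀ y ∈ LT T, IsInt w y → dk (Fin (n + 1)) y *ᵥ c = 0) → c ∈ T n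
  two : ∀ c ∈ T 1, c ∈ AC A (Fin (1 + 1))
  proj : ∃ F : Matrix (Fin (1 + 1) → ι) (Fin (1 + 1) → ι) ℂ,
    (∀ v, ∃ y ∈ LT T, F *ᵥ v = ar2 (y * cQ H.Qir)) ∧
    (∀ y ∈ LT T, F *ᵥ ar2 (y * cQ H.Qir) = ar2 (y * cQ H.Qir)) ∧
    arr (F * kp (Fin (1 + 1)) (cQ H.Qir)) ∈ AC A (Fin (1 + 1) ⊕ Fin (1 + 1))

variable {H : HData ι} {A : ∀ n : ℕ, Submodule ℚ ((Fin (n + 1) → ι) → ℚ)}
  {T : ∀ n : ℕ, Submodule ℂ ((Fin (n + 1) → ι) → ℂ)} {w : ℕ}

lemma kpQ_mul (κ : Type) [Fintype κ] [DecidableEq κ] :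
    kp κ (cQ H.Qir) * kp κ (cQ H.Qr) = 1 := by
  rw [← kp_mul, Qi_Q, kp_one]

/-- Operators given by arrays of the family commute with the Lie algebra. -/
lemma comm_dk (hA : RFam H A) (hinv : arr (kp Unit H.Qir) ∈ AQ A (Unit ⊕ Unit)) {κ : Type}
    [Fintype κ] [DecidableEq κ] {F : Matrix (κ → ι) (κ → ι) ℂ}
    (hF : arr (F * kp κ (cQ H.Qir)) ∈ AC A (κ ⊕ κ)) {x : Matrix ι ι ℂ} (hx : x ∈ LA A) :
    dk κ x * F = F * dk κ x := by
  have h1 := congrArg mat (kill_AC hx hF)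
  rw [mat_dk, mat_arr] at h1
  have h2 := congrArg mat (kill_AC hx (AC_of (invQ' hA hinv κ)))
  have h0 : ca (arr (kp κ H.Qir)) = arr (kp κ (cQ H.Qir)) := by rw [kp_cQ]; rfl
  rw [h0, mat_dk, mat_arr] at h2
  have h3 : kp κ (cQ H.Qir) * (dk κ x)ᵀ = -(dk κ x * kp κ (cQ H.Qir)) := by
    rw [eq_neg_iff_add_eq_zero, add_comm]; exact h2
  have h4 : dk κ x * (F * kp κ (cQ H.Qir)) = F * (dk κ x * kp κ (cQ H.Qir)) := by
    have h5 : mat (0 : (κ ⊕ κ → ι) → ℂ) = 0 := rfl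
    rw [h5, Matrix.mul_assoc F, h3, Matrix.mul_neg, add_neg_eq_zero] at h1
    exact h1
  calc dk κ x * F = dk κ x * (F * kp κ (cQ H.Qir)) * kp κ (cQ H.Qr) := by
        rw [Matrix.mul_assoc, Matrix.mul_assoc, kpQ_mul, Matrix.mul_one]
    _ = F * dk κ x := by
        rw [h4, Matrix.mul_assoc, Matrix.mul_assoc, kpQ_mul, Matrix.mul_one]

/-- Operators given by arrays of the family commute with the matrices which fix the family. -/
lemma comm_kp (hA : RFam H A) (hinv : arr (kp Unit H.Qir) ∈ AQ A (Unit ⊕ Unit)) {κ : Type}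
    [Fintype κ] [DecidableEq κ] {F : Matrix (κ → ι) (κ → ι) ℂ}
    (hF : arr (F * kp κ (cQ H.Qir)) ∈ AC A (κ ⊕ κ)) {g : Matrix ι ι ℂ} (hg : FixA A g) :
    kp κ g * F = F * kp κ g := by
  have h1 := congrArg mat (hg.ac hF)
  rw [kp_arr, mat_arr, mat_arr] at h1
  have h2 := congrArg mat (hg.ac (AC_of (invQ' hA hinv κ)))
  have h0 : ca (arr (kp κ H.Qir)) = arr (kp κ (cQ H.Qir)) := by rw [kp_cQ]; rfl
  rw [h0, kp_arr, mat_arr, mat_arr] at h2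
  -- the right inverse of `kp κ g`
  obtain ⟨R, hR⟩ : ∃ R, R = kp κ (cQ H.Qir) * (kp κ g)ᵀ * kp κ (cQ H.Qr) := ⟨_, rfl⟩
  have h6 : kp κ g * R = 1 := by
    rw [hR]
    calc kp κ g * (kp κ (cQ H.Qir) * (kp κ g)ᵀ * kp κ (cQ H.Qr)) =
        (kp κ g * kp κ (cQ H.Qir) * (kp κ g)ᵀ) * kp κ (cQ H.Qr) := by
          simp only [Matrix.mul_assoc]
      _ = 1 := by rw [h2, kpQ_mul]
  have h7 : R * kp κ g = 1 := mul_eq_one_comm.1 h6
  have h8 : kp κ g * F * R = F := by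
    rw [hR]
    calc kp κ g * F * (kp κ (cQ H.Qir) * (kp κ g)ᵀ * kp κ (cQ H.Qr)) =
        (kp κ g * (F * kp κ (cQ H.Qir)) * (kp κ g)ᵀ) * kp κ (cQ H.Qr) := by
          simp only [Matrix.mul_assoc]
      _ = F := by rw [h1, Matrix.mul_assoc, kpQ_mul, Matrix.mul_one]
  calc kp κ g * F = kp κ g * F * (R * kp κ g) := by rw [h7, Matrix.mul_one]
    _ = _ := by rw [← Matrix.mul_assoc, h8]

namespace Dat

variable (D : Dat H A T w)
include D

lemma sub {y : Matrix ι ι ℂ} (hy : y ∈ LT T) : y ∈ LA A := LT_le_LA D.fam D.le hy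

lemma mulQi_inj {x y : Matrix ι ι ℂ} (h : x * cQ H.Qir = y * cQ H.Qir) : x = y := by
  have h1 := congrArg (fun z => z * cQ H.Qr) h
  beta_reduce at h1
  rwa [Matrix.mul_assoc, Matrix.mul_assoc, Qi_Q, Matrix.mul_one, Matrix.mul_one] at h1

/-- The Lie algebra of the Tate arrays is an ideal. -/
lemma ideal {x y : Matrix ι ι ℂ} (hx : x ∈ LA A) (hy : y ∈ LT T) : br x y ∈ LT T := by
  obtain ⟨F, hF1, hF2, hF3⟩ := D.proj
  have hc := comm_dk D.fam D.hinv hF3 hx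
  have h1 : dk (Fin (1 + 1)) x *ᵥ ar2 (y * cQ H.Qir) = ar2 (br x y * cQ H.Qir) := by
    rw [dk_ar2]
    congr 1
    have h2 : cQ H.Qir * xᵀ = -(x * cQ H.Qir) := by
      rw [eq_neg_iff_add_eq_zero, add_comm]; exact LA_skew D.hinv hx
    rw [Matrix.mul_assoc y, h2, br, Matrix.sub_mul, Matrix.mul_neg, sub_eq_add_neg,
      Matrix.mul_assoc, Matrix.mul_assoc y]
  have h2 : F *ᵥ (dk (Fin (1 + 1)) x *ᵥ ar2 (y * cQ H.Qir)) =
      dk (Fin (1 + 1)) x *ᵥ ar2 (y * cQ H.Qir) := by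
    rw [Matrix.mulVec_mulVec, ← hc, ← Matrix.mulVec_mulVec, hF2 y hy]
  obtain ⟨y', hy', h3⟩ := hF1 (dk (Fin (1 + 1)) x *ᵥ ar2 (y * cQ H.Qir))
  rw [h2, h1] at h3
  rw [D.mulQi_inj (ar2_inj h3)]
  exact hy'

/-- The Lie algebra of the Tate arrays is stable under conjugation by the Weil operator. -/
lemma stabC {y : Matrix ι ι ℂ} (hy : y ∈ LT T) : cR H.D.Ci * y * cR H.D.C ∈ LT T := by
  obtain ⟨F, hF1, hF2, hF3⟩ := D.proj
  have hfix := fixA_Ci (A := A) D.fam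
  have hc := comm_kp D.fam D.hinv hF3 hfix
  have h1 : kp (Fin (1 + 1)) (cR H.D.Ci) *ᵥ ar2 (y * cQ H.Qir) =
      ar2 (cR H.D.Ci * y * cR H.D.C * cQ H.Qir) := by
    rw [kp_ar2]
    congr 1
    have h2 := FixA_form D.hinv hfix
    have h3 : cQ H.Qir * (cR H.D.Ci)ᵀ = cR H.D.C * cQ H.Qir := by
      calc cQ H.Qir * (cR H.D.Ci)ᵀ = (cR H.D.C * cR H.D.Ci) * cQ H.Qir * (cR H.D.Ci)ᵀ := by
            rw [C_Ci, Matrix.one_mul]
        _ = cR H.D.C * (cR H.D.Ci * cQ H.Qir * (cR H.D.Ci)ᵀ) := by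
            simp only [Matrix.mul_assoc]
        _ = _ := by rw [h2]
    calc cR H.D.Ci * (y * cQ H.Qir) * (cR H.D.Ci)ᵀ =
        cR H.D.Ci * y * (cQ H.Qir * (cR H.D.Ci)ᵀ) := by simp only [Matrix.mul_assoc]
      _ = _ := by rw [h3]; simp only [Matrix.mul_assoc]
  have h2 : F *ᵥ (kp (Fin (1 + 1)) (cR H.D.Ci) *ᵥ ar2 (y * cQ H.Qir)) =
      kp (Fin (1 + 1)) (cR H.D.Ci) *ᵥ ar2 (y * cQ H.Qir) := by
    rw [Matrix.mulVec_mulVec, ← hc, ← Matrix.mulVec_mulVec, hF2 y hy]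
  obtain ⟨y', hy', h3⟩ := hF1 (kp (Fin (1 + 1)) (cR H.D.Ci) *ᵥ ar2 (y * cQ H.Qir))
  rw [h2, h1] at h3
  rw [D.mulQi_inj (ar2_inj h3)]
  exact hy'

end Dat

/-! ### The adjoint -/

section Adj

variable (H) in
/-- The matrix in orthonormal coordinates. -/
noncomputable def nz (x : Matrix ι ι ℂ) : Matrix ι ι ℂ := cR H.D.M * x * cR H.D.Mi

lemma M_Mi : cR H.D.M * cR H.D.Mi = 1 := by rw [← cR_mul, H.D.hM, cR_one]

lemma Mi_M : cR H.D.Mi * cR H.D.M = 1 := mul_eq_one_comm.1 M_Mi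

lemma nz_mul (x y : Matrix ι ι ℂ) : nz H (x * y) = nz H x * nz H y := by
  rw [nz, nz, nz]
  calc cR H.D.M * (x * y) * cR H.D.Mi = cR H.D.M * x * 1 * y * cR H.D.Mi := by
        rw [Matrix.mul_one]; simp only [Matrix.mul_assoc]
    _ = _ := by rw [← Mi_M (H := H)]; simp only [Matrix.mul_assoc]

lemma nz_add (x y : Matrix ι ι ℂ) : nz H (x + y) = nz H x + nz H y := by
  rw [nz, nz, nz, Matrix.mul_add, Matrix.add_mul]

lemma nz_sub (x y : Matrix ι ι ℂ) : nz H (x - y) = nz H x - nz H y := by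
  rw [nz, nz, nz, Matrix.mul_sub, Matrix.sub_mul]

lemma nz_smul (c : ℂ) (x : Matrix ι ι ℂ) : nz H (c • x) = c • nz H x := by
  rw [nz, nz, Matrix.mul_smul, Matrix.smul_mul]

lemma nz_trace (x : Matrix ι ι ℂ) : (nz H x).trace = x.trace := by
  rw [nz, Matrix.trace_mul_comm, ← Matrix.mul_assoc, Mi_M, Matrix.one_mul]

lemma nz_inj {x y : Matrix ι ι ℂ} (h : nz H x = nz H y) : x = y := by
  have h1 := congrArg (fun z => cR H.D.Mi * z * cR H.D.M) h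
  simp only [nz] at h1
  have h2 : ∀ x : Matrix ι ι ℂ, cR H.D.Mi * (cR H.D.M * x * cR H.D.Mi) * cR H.D.M = x := by
    intro x
    calc cR H.D.Mi * (cR H.D.M * x * cR H.D.Mi) * cR H.D.M =
        (cR H.D.Mi * cR H.D.M) * x * (cR H.D.Mi * cR H.D.M) := by simp only [Matrix.mul_assoc]
      _ = x := by rw [Mi_M, Matrix.one_mul, Matrix.mul_one]
  rwa [h2, h2] at h1

variable (H) in
/-- The adjoint of an element of the Lie algebra. -/
noncomputable def adj (x : Matrix ι ι ℂ) : Matrix ι ι ℂ := -(cR H.D.Ci * x.map conj * cR H.D.C)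

lemma cR_map_conj {m n : Type*} (M : Matrix m n ℝ) : (cR M).map conj = cR M := by
  ext i j
  simp [cR]

lemma cQ_map_conj {m n : Type*} (M : Matrix m n ℚ) : (cQ M).map conj = cQ M := by
  ext i j
  simp [cQ]

lemma map_mul_c (x y : Matrix ι ι ℂ) : (x * y).map conj = x.map conj * y.map conj :=
  Matrix.map_mul (f := (starRingEnd ℂ))

lemma map_conj_conj (x : Matrix ι ι ℂ) : (x.map conj).map conj = x := by
  ext i j
  simp

lemma nz_adj (hinv : arr (kp Unit H.Qir) ∈ AQ A (Unit ⊕ Unit)) {x : Matrix ι ι ℂ}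
    (hx : x ∈ LA A) : (nz H x)ᴴ = nz H (adj H x) := by
  have h1 := LA_skew hinv (LA_cj hx)
  have h3 : xᴴ = (x.map conj)ᵀ := by
    ext i j; simp [Matrix.conjTranspose_apply]
  have h4 : (x.map conj)ᵀ = -(cQ H.Qr * x.map conj * cQ H.Qir) := by
    have h5 : cQ H.Qir * (x.map conj)ᵀ = -((x.map conj) * cQ H.Qir) := by
      rw [eq_neg_iff_add_eq_zero, add_comm]; exact h1
    calc (x.map conj)ᵀ = cQ H.Qr * (cQ H.Qir * (x.map conj)ᵀ) := by
          rw [← Matrix.mul_assoc, Q_Qi, Matrix.one_mul]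
      _ = _ := by rw [h5, Matrix.mul_neg, Matrix.mul_assoc]
  -- `Q = Mᴴ M C⁻¹`
  have h5 : (cR H.D.M)ᴴ * cR H.D.M = cQ H.Qr * cR H.D.C := by
    rw [cR_conjTranspose, ← cR_mul, H.D.hS, cR_mul, cR_Q]
  have h6 : (cR H.D.M)ᴴ * (cR H.D.Mi)ᴴ = 1 := by
    rw [← Matrix.conjTranspose_mul, Mi_M, Matrix.conjTranspose_one]
  have h6' : (cR H.D.Mi)ᴴ * (cR H.D.M)ᴴ = 1 := mul_eq_one_comm.1 h6
  have h7 : (cR H.D.Mi)ᴴ * cQ H.Qr = cR H.D.M * cR H.D.Ci := by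
    calc (cR H.D.Mi)ᴴ * cQ H.Qr = (cR H.D.Mi)ᴴ * (cQ H.Qr * cR H.D.C) * cR H.D.Ci := by
          rw [Matrix.mul_assoc, Matrix.mul_assoc, C_Ci, Matrix.mul_one]
      _ = ((cR H.D.Mi)ᴴ * (cR H.D.M)ᴴ) * cR H.D.M * cR H.D.Ci := by
          rw [← h5]; simp only [Matrix.mul_assoc]
      _ = _ := by rw [h6', Matrix.one_mul]
  have h8 : cQ H.Qir * (cR H.D.M)ᴴ = cR H.D.C * cR H.D.Mi := by
    calc cQ H.Qir * (cR H.D.M)ᴴ = cQ H.Qir * ((cR H.D.M)ᴴ * cR H.D.M) * cR H.D.Mi := by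
          rw [Matrix.mul_assoc, Matrix.mul_assoc, M_Mi, Matrix.mul_one]
      _ = (cQ H.Qir * cQ H.Qr) * cR H.D.C * cR H.D.Mi := by
          rw [h5]; simp only [Matrix.mul_assoc]
      _ = _ := by rw [Qi_Q, Matrix.one_mul]
  rw [nz, Matrix.conjTranspose_mul, Matrix.conjTranspose_mul, h3, h4, nz, adj]
  calc (cR H.D.Mi)ᴴ * (-(cQ H.Qr * x.map conj * cQ H.Qir) * (cR H.D.M)ᴴ) =
      -(((cR H.D.Mi)ᴴ * cQ H.Qr) * x.map conj * (cQ H.Qir * (cR H.D.M)ᴴ)) := by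
        simp only [Matrix.mul_neg, Matrix.neg_mul, Matrix.mul_assoc]
    _ = _ := by
        rw [h7, h8]
        simp only [Matrix.mul_neg, Matrix.neg_mul, Matrix.mul_assoc]

lemma adj_LA (hA : RFam H A) {x : Matrix ι ι ℂ} (hx : x ∈ LA A) : adj H x ∈ LA A :=
  Submodule.neg_mem _ (LA_conj (fixA_C hA) Ci_C (LA_cj hx))

/-- Orthogonal decomposition. -/
lemma exists_dec (U : Submodule ℂ (Matrix ι ι ℂ)) (x : Matrix ι ι ℂ) :
    ∃ u ∈ U, ∀ z ∈ U, (nz H (x - u) * (nz H z)ᴴ).trace = 0 := by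
  let f : (ι × ι → ℂ) →ₗ[ℂ] Matrix ι ι ℂ :=
    { toFun := fun v => cR H.D.Mi * (Matrix.of fun i j => v (i, j)) * cR H.D.M
      map_add' := fun a b => by
        rw [← Matrix.add_mul, ← Matrix.mul_add]
        rfl
      map_smul' := fun c a => by
        rw [RingHom.id_apply, ← Matrix.smul_mul, ← Matrix.mul_smul]
        rfl }
  have hf : ∀ v, nz H (f v) = Matrix.of fun i j => v (i, j) := by
    intro v
    change cR H.D.M * (cR H.D.Mi * (Matrix.of fun i j => v (i, j)) * cR H.D.M) * cR H.D.Mi = _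
    calc cR H.D.M * (cR H.D.Mi * (Matrix.of fun i j => v (i, j)) * cR H.D.M) * cR H.D.Mi =
        (cR H.D.M * cR H.D.Mi) * (Matrix.of fun i j => v (i, j)) * (cR H.D.M * cR H.D.Mi) := by
          simp only [Matrix.mul_assoc]
      _ = _ := by rw [M_Mi, Matrix.one_mul, Matrix.mul_one]
  have hsurj : ∀ x, ∃ v, f v = x := by
    intro x
    refine ⟨fun p => nz H x p.1 p.2, nz_inj (H := H) ?_⟩
    rw [hf]
    rfl
  obtain ⟨v, hv⟩ := hsurj x
  obtain ⟨u, hu, h⟩ := exists_orth (1 : Matrix (ι × ι) (ι × ι) ℂ) (U.comap f) v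
  refine ⟨f u, hu, fun z hz => ?_⟩
  obtain ⟨z', hz'⟩ := hsurj z
  have h1 := h z' (by change f z' ∈ U; rw [hz']; exact hz)
  rw [Matrix.one_mulVec, Matrix.one_mulVec, dotProduct, Fintype.sum_prod_type] at h1
  rw [← hv, ← map_sub, ← hz', hf, hf, Matrix.trace]
  refine Eq.trans (Finset.sum_congr rfl fun i _ => ?_) h1
  rw [Matrix.diag_apply, Matrix.mul_apply]
  refine Finset.sum_congr rfl fun j _ => ?_
  rw [Matrix.conjTranspose_apply, Matrix.of_apply, Matrix.of_apply, Pi.star_apply, mul_comm]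

end Adj

end Pool.Agent.L0h10.RQ
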