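import Mathlib

/-!
# Engel's theorem for spaces of matrices
-/

set_option linter.unusedSectionVars false

namespace Pool.Agent.L0h10.RQ

open Matrix Module

attribute [local instance 100] LieRing.ofAssociativeRing

variable {ι : Type} [Fintype ι] [DecidableEq ι] {F : Type} [Field F]

/-- **Engel's theorem.** -/
theorem engel {r : Submodule F (Matrix ι ι F)}
    (hbr : ∀ x ∈ r, ∀ y ∈ r, x * y - y * x ∈ r) (hnil : ∀ x ∈ r, IsNilpotent x)
    {W : Submodule F (ι → F)} (hW : ∀ x ∈ r, ∀ v ∈ W, x *ᵥ v ∈ W) (h0 : W ≠ ⊥) :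
    ∃ v ∈ W, v ≠ 0 ∧ ∀ x ∈ r, x *ᵥ v = 0 := by
  classical
  let R' : LieSubalgebra F (Module.End F (ι → F)) :=
    { (r.map (Matrix.toLin' : Matrix ι ι F ≃ₗ[F] _).toLinearMap :
        Submodule F (Module.End F (ι → F))) with
      lie_mem' := by
        rintro _ _ ⟨x, hx, rfl⟩ ⟨y, hy, rfl⟩
        refine ⟨x * y - y * x, hbr x hx y hy, ?_⟩
        change Matrix.toLin' (x * y - y * x) = _
        rw [map_sub, Matrix.toLin'_mul, Matrix.toLin'_mul]
        rfl }
  have hR' : ∀ f : Module.End F (ι → F), f ∈ R' → ∃ x ∈ r, Matrix.toLin' x = f := fun f hf => hf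
  have hR : ∀ x ∈ r, (Matrix.toLin' x : Module.End F (ι → F)) ∈ R' := fun x hx => ⟨x, hx, rfl⟩
  let W' : LieSubmodule F R' (ι → F) :=
    { W with
      lie_mem := by
        rintro ⟨f, hf⟩ m hm
        obtain ⟨x, hx, rfl⟩ := hR' f hf
        exact hW x hx m hm }
  have hW' : ∀ v, v ∈ W' ↔ v ∈ W := fun v => Iff.rfl
  have hnt : Nontrivial W' := by
    obtain ⟨v, hv, hv0⟩ := W.ne_bot_iff.1 h0
    exact ⟨⟨⟨v, hv⟩, 0, fun h => hv0 (congrArg Subtype.val h)⟩⟩
  have hni : LieModule.IsNilpotent R' W' := by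
    rw [LieModule.isNilpotent_iff_forall' (R := F)]
    rintro ⟨f, hf⟩
    obtain ⟨x, hx, rfl⟩ := hR' f hf
    obtain ⟨m, hm⟩ := hnil x hx
    refine ⟨m, ?_⟩
    refine LinearMap.ext fun v => Subtype.ext ?_
    have key : ∀ k : ℕ, (((LieModule.toEnd F R' W' ⟨Matrix.toLin' x, hf⟩) ^ k) v : ι → F) =
        (x ^ k) *ᵥ (v : ι → F) := by
      intro k
      induction k with
      | zero => rw [pow_zero, pow_zero, Matrix.one_mulVec]; rfl
      | succ k ih =>
        rw [pow_succ', pow_succ', ← Matrix.mulVec_mulVec, ← ih]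
        rfl
    rw [key, hm, Matrix.zero_mulVec]
    rfl
  have := LieModule.nontrivial_max_triv_of_isNilpotent F R' W'
  obtain ⟨⟨v, hv⟩, hv0⟩ := exists_ne (0 : LieModule.maxTrivSubmodule F R' W')
  refine ⟨v.1, v.2, fun h => hv0 (Subtype.ext (Subtype.ext h)), fun x hx => ?_⟩
  have h1 := (LieModule.mem_maxTrivSubmodule F R' W' v).1 hv ⟨Matrix.toLin' x, hR x hx⟩
  exact congrArg Subtype.val h1

end Pool.Agent.L0h10.RQ
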