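import Pool.Agent.L0h10.RQ.Base
import Pool.Agent.L0h10.TS.Vec2
import Pool.Agent.L0h10.TS.Grd

/-!
# Galois representations in coordinates: Tate arrays
-/

set_option linter.unusedSectionVars false

namespace Pool.Agent.L0h10.RQ

open Matrix
open Pool.Agent.N996.BP Pool.Agent.N996.FP
open Pool.Agent.L0h10.TS (ar2 ar2_inj dk_ar2 kp_ar2 dk_rei dk_empty dk_mulVec_apply GRep desc_sol
  dv dv_eq dv_map cL)

variable {ι : Type} [Fintype ι] [DecidableEq ι] {deg : ι → ℕ} {L : Type} [Field L] [CharZero L]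
  (j : L →+* ℂ) {Γ : Type*} [Group Γ] [TopologicalSpace Γ] (P : GRep deg L Γ)

/-- The complex spans of the arrays of the Tate classes. -/
def TT (n : ℕ) : Submodule ℂ ((Fin (n + 1) → ι) → ℂ) :=
  Submodule.span ℂ {x | ∃ b, P.IsT n b ∧ x = fun w => j (b w)}

variable {j P}

lemma TT_of {n : ℕ} {b : (Fin (n + 1) → ι) → L} (hb : P.IsT n b) : (fun w => j (b w)) ∈ TT j P n :=
  Submodule.subset_span ⟨b, hb, rfl⟩

/-- The matrices which kill the Tate arrays. -/
lemma mem_LT {y : Matrix ι ι ℂ} : y ∈ LT (TT j P) ↔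
    ∀ n a, P.IsT n a → dk (Fin (n + 1)) y *ᵥ (fun w => j (a w)) = 0 := by
  constructor
  · intro h n a ha
    exact h n _ (TT_of ha)
  · intro h n c hc
    induction hc using Submodule.span_induction with
    | mem x hx => obtain ⟨b, hb, rfl⟩ := hx; exact h n b hb
    | zero => rw [Matrix.mulVec_zero]
    | add a b _ _ ha hb => rw [Matrix.mulVec_add, ha, hb, add_zero]
    | smul r a _ ha => rw [Matrix.mulVec_smul, ha, smul_zero]

/-- Complex arrays on which an open subgroup acts like on Tate arrays. -/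
lemma desc_T' {n p : ℕ} {a : (Fin (n + 1) → ι) → ℂ}
    (h1 : ∀ w, a w ≠ 0 → ∑ i, deg (w i) = 2 * p) {Δ : OpenSubgroup Γ}
    (h2 : ∀ g ∈ Δ, j (P.χ g) ^ p • (kp (Fin (n + 1)) ((P.R g).map j) *ᵥ a) = a) :
    a ∈ TT j P n := by
  classical
  let M : (Fin (n + 1) → ι) ⊕ (Δ × (Fin (n + 1) → ι)) → (Fin (n + 1) → ι) → L :=
    Sum.elim (fun w v => if w = v ∧ ∑ i, deg (w i) ≠ 2 * p then 1 else 0)
      fun gw v => P.χ gw.1 ^ p * kp (Fin (n + 1)) (P.R gw.1) gw.2 v - if gw.2 = v then 1 else 0
  have hM : ∀ k, ∑ v, j (M k v) * a v = 0 := by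
    rintro (w | ⟨g, w⟩)
    · change ∑ v, j (if w = v ∧ ∑ i, deg (w i) ≠ 2 * p then 1 else 0) * a v = 0
      refine Finset.sum_eq_zero fun v _ => ?_
      by_cases h : w = v ∧ ∑ i, deg (w i) ≠ 2 * p
      · obtain ⟨rfl, h3⟩ := h
        have h4 : a w = 0 := by
          by_contra h5
          exact h3 (h1 w h5)
        rw [h4, mul_zero]
      · rw [if_neg h, map_zero, zero_mul]
    · change ∑ v, j (P.χ g ^ p * kp (Fin (n + 1)) (P.R g) w v - if w = v then 1 else 0) * a v = 0
      have h3 := congrFun (h2 g g.2) w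
      rw [Pi.smul_apply, Matrix.mulVec, dotProduct, smul_eq_mul, Finset.mul_sum] at h3
      have h4 : ∑ v, j (if w = v then 1 else 0) * a v = a w := by
        rw [Finset.sum_eq_single w]
        · rw [if_pos rfl, map_one, one_mul]
        · intro v _ hv
          rw [if_neg (Ne.symm hv), map_zero, zero_mul]
        · intro h; exact absurd (Finset.mem_univ _) h
      rw [← sub_eq_zero, ← h4, ← Finset.sum_sub_distrib] at h3
      rw [← h3]
      refine Finset.sum_congr rfl fun v _ => ?_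
      rw [map_sub, map_mul, map_pow, sub_mul, ← mul_assoc, kp_apply, kp_apply, map_prod]
      rfl
  have h3 := desc_sol j M hM
  refine Submodule.span_mono ?_ h3
  rintro x ⟨u, hu, rfl⟩
  refine ⟨u, ⟨p, fun w hw => ?_, Δ, fun g hg => ?_⟩, rfl⟩
  · have h4 := hu (Sum.inl w)
    change ∑ v, (if w = v ∧ ∑ i, deg (w i) ≠ 2 * p then (1 : L) else 0) * u v = 0 at h4
    by_contra h5
    rw [Finset.sum_eq_single w] at h4
    · rw [if_pos ⟨rfl, h5⟩, one_mul] at h4
      exact hw h4
    · intro v _ hv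
      rw [if_neg fun h => hv h.1.symm, zero_mul]
    · intro h; exact absurd (Finset.mem_univ _) h
  · funext w
    have h4 := hu (Sum.inr (⟨g, hg⟩, w))
    change ∑ v, (P.χ g ^ p * kp (Fin (n + 1)) (P.R g) w v - if w = v then 1 else 0) * u v = 0
      at h4
    rw [Pi.smul_apply, Matrix.mulVec, dotProduct, smul_eq_mul, Finset.mul_sum]
    have h5 : ∑ v, (if w = v then (1 : L) else 0) * u v = u w := by
      rw [Finset.sum_eq_single w]
      · rw [if_pos rfl, one_mul]
      · intro v _ hv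
        rw [if_neg (Ne.symm hv), zero_mul]
      · intro h; exact absurd (Finset.mem_univ _) h
    simp only [sub_mul, Finset.sum_sub_distrib] at h4
    rw [h5, sub_eq_zero] at h4
    rw [← h4]
    refine Finset.sum_congr rfl fun v _ => ?_
    rw [mul_assoc]

variable (j P) in
/-- The normalised action: `s` is a square root of the character. -/
noncomputable def Rs (s : ℂ) (g : Γ) : Matrix ι ι ℂ :=
  Matrix.diagonal (fun i => s ^ deg i) * (P.R g).map j

lemma kp_diag {R : Type*} [CommRing R] (κ : Type) [Fintype κ] [DecidableEq κ] (d : ι → R)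
    (a : (κ → ι) → R) (w : κ → ι) :
    (kp κ (Matrix.diagonal d) *ᵥ a) w = (∏ k, d (w k)) * a w := by
  rw [Matrix.mulVec, dotProduct, Finset.sum_eq_single w]
  · rw [kp_apply]
    congr 1
    refine Finset.prod_congr rfl fun k _ => ?_
    rw [Matrix.diagonal_apply_eq]
  · intro v _ hv
    obtain ⟨k, hk⟩ := Function.ne_iff.1 hv
    have h1 : Matrix.diagonal d (w k) (v k) = 0 := Matrix.diagonal_apply_ne d (Ne.symm hk)
    rw [kp_apply, Finset.prod_eq_zero (Finset.mem_univ k) h1, zero_mul]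
  · intro h; exact absurd (Finset.mem_univ _) h

/-- **Arrays fixed by the normalised action are combinations of Tate arrays.** -/
lemma mem_TT {n : ℕ} {a : (Fin (n + 1) → ι) → ℂ}
    (heven : ∀ w, a w ≠ 0 → Even (∑ i, deg (w i))) {Δ : OpenSubgroup Γ}
    (h : ∀ g ∈ Δ, ∃ s : ℂ, s ^ 2 = j (P.χ g) ∧ kp (Fin (n + 1)) (Rs j P s g) *ᵥ a = a) :
    a ∈ TT j P n := by
  classical
  let ap : ℕ → (Fin (n + 1) → ι) → ℂ := fun p w => if ∑ i, deg (w i) = 2 * p then a w else 0
  have key : ∀ p, ap p ∈ TT j P n := by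
    intro p
    refine desc_T' (p := p) (Δ := Δ) (fun w hw => ?_) fun g hg => ?_
    · by_contra h1
      exact hw (if_neg h1)
    · obtain ⟨s, hs, h1⟩ := h g hg
      funext w
      have hsupp : ∀ v, ∑ i, deg (w i) ≠ ∑ i, deg (v i) →
          kp (Fin (n + 1)) ((P.R g).map j) w v = 0 := by
        intro v hv
        obtain ⟨i, hi⟩ : ∃ i, deg (w i) ≠ deg (v i) := by
          by_contra hcon
          push Not at hcon
          exact hv (Finset.sum_congr rfl fun i _ => hcon i)
        rw [kp_apply, Finset.prod_eq_zero (Finset.mem_univ i)]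
        rw [Matrix.map_apply, P.deg' g _ _ hi, map_zero]
      have h3 : (kp (Fin (n + 1)) ((P.R g).map j) *ᵥ ap p) w =
          if ∑ i, deg (w i) = 2 * p then (kp (Fin (n + 1)) ((P.R g).map j) *ᵥ a) w else 0 := by
        rw [Matrix.mulVec, Matrix.mulVec, dotProduct, dotProduct]
        by_cases hw : ∑ i, deg (w i) = 2 * p
        · rw [if_pos hw]
          refine Finset.sum_congr rfl fun v _ => ?_
          by_cases hv : ∑ i, deg (w i) = ∑ i, deg (v i)
          · change _ * (if ∑ i, deg (v i) = 2 * p then a v else 0) = _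
            rw [if_pos (by rw [← hv]; exact hw)]
          · rw [hsupp v hv, zero_mul, zero_mul]
        · rw [if_neg hw]
          refine Finset.sum_eq_zero fun v _ => ?_
          by_cases hv : ∑ i, deg (w i) = ∑ i, deg (v i)
          · change _ * (if ∑ i, deg (v i) = 2 * p then a v else 0) = _
            rw [if_neg (by rw [← hv]; exact hw), mul_zero]
          · rw [hsupp v hv, zero_mul]
      rw [Pi.smul_apply, h3, smul_eq_mul]
      change _ = if ∑ i, deg (w i) = 2 * p then a w else 0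
      by_cases hw : ∑ i, deg (w i) = 2 * p
      · rw [if_pos hw, if_pos hw]
        have h4 := congrFun h1 w
        rw [Rs, kp_mul, ← Matrix.mulVec_mulVec, kp_diag, Finset.prod_pow_eq_pow_sum, hw, pow_mul,
          hs] at h4
        exact h4
      · rw [if_neg hw, if_neg hw, mul_zero]
  have hsum : a = ∑ p ∈ Finset.univ.image (fun w : Fin (n + 1) → ι => (∑ i, deg (w i)) / 2),
      ap p := by
    funext w
    rw [Finset.sum_apply]
    by_cases hw : a w = 0
    · rw [hw, Finset.sum_eq_zero]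
      intro p _
      change (if ∑ i, deg (w i) = 2 * p then a w else 0) = 0
      rw [hw, ite_self]
    · obtain ⟨m, hm⟩ := heven w hw
      rw [Finset.sum_eq_single ((∑ i, deg (w i)) / 2)]
      · change _ = if ∑ i, deg (w i) = 2 * ((∑ i, deg (w i)) / 2) then a w else 0
        rw [if_pos (by omega)]
      · intro p _ hp
        change (if ∑ i, deg (w i) = 2 * p then a w else 0) = 0
        rw [if_neg (by omega)]
      · intro h
        exact absurd (Finset.mem_image_of_mem _ (Finset.mem_univ w)) h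
  rw [hsum]
  exact Submodule.sum_mem _ fun p _ => key p

lemma R_cast_inv (g : Γ) : (P.R g).map j * (P.R g⁻¹).map j = 1 := by
  have h1 : (P.R g).map j * (P.R g⁻¹).map j = (P.R g * P.R g⁻¹).map j :=
    (Matrix.map_mul (f := j)).symm
  rw [h1, ← P.mul, mul_inv_cancel, P.one]
  exact Matrix.map_one _ (map_zero j) (map_one j)

lemma kp_cast' {n : ℕ} (g : Matrix ι ι L) (a : (Fin (n + 1) → ι) → L) :
    kp (Fin (n + 1)) (g.map j) *ᵥ (fun w => j (a w)) =
      fun w => j ((kp (Fin (n + 1)) g *ᵥ a) w) := by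
  funext w
  rw [Matrix.mulVec, Matrix.mulVec, dotProduct, dotProduct, map_sum]
  refine Finset.sum_congr rfl fun v _ => ?_
  rw [map_mul, kp_apply, kp_apply, map_prod]
  rfl

/-- The Lie algebra is normalised by the group. -/
lemma LT_conj [IsTopologicalGroup Γ] {y : Matrix ι ι ℂ} (hy : y ∈ LT (TT j P)) (g : Γ) :
    (P.R g).map j * y * (P.R g⁻¹).map j ∈ LT (TT j P) := by
  obtain ⟨c, hc⟩ : ∃ c, c = (P.R g).map j := ⟨_, rfl⟩
  obtain ⟨c', hc'⟩ : ∃ c', c' = (P.R g⁻¹).map j := ⟨_, rfl⟩
  have h1 : c * c' = 1 := by rw [hc, hc']; exact R_cast_inv g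
  have h2 : c' * c = 1 := mul_eq_one_comm.1 h1
  rw [← hc, ← hc', mem_LT]
  intro n a ha
  have h4 := kp_dk (κ := Fin (n + 1)) h2 y
  have h5 : (fun w => j (a w)) = kp (Fin (n + 1)) c *ᵥ
      fun w => j ((kp (Fin (n + 1)) (P.R g⁻¹) *ᵥ a) w) := by
    rw [← kp_cast', ← hc', Matrix.mulVec_mulVec, ← kp_mul, h1, kp_one, Matrix.one_mulVec]
  rw [h5, Matrix.mulVec_mulVec, ← h4, ← Matrix.mulVec_mulVec, mem_LT.1 hy n _ (ha.kp g⁻¹),
    Matrix.mulVec_zero]

variable (j P) in
/-- The Lie algebra over `L`. -/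
def gL : Submodule L (Matrix ι ι L) where
  carrier := {y | y.map j ∈ LT (TT j P)}
  add_mem' {x y} hx hy := by
    have h1 : (x + y).map j = x.map j + y.map j := by
      ext i k; simp
    change (x + y).map j ∈ LT (TT j P)
    rw [h1]
    exact Submodule.add_mem _ hx hy
  zero_mem' := by
    have h1 : (0 : Matrix ι ι L).map j = 0 := by
      ext i k; simp
    change (0 : Matrix ι ι L).map j ∈ LT (TT j P)
    rw [h1]
    exact Submodule.zero_mem _
  smul_mem' c x hx := by
    have h1 : (c • x).map j = j c • x.map j := by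
      ext i k; simp
    change (c • x).map j ∈ LT (TT j P)
    rw [h1]
    exact Submodule.smul_mem _ _ hx

/-- The Lie algebra is defined over `L`. -/
lemma LT_span {y : Matrix ι ι ℂ} (hy : y ∈ LT (TT j P)) :
    y ∈ Submodule.span ℂ {x | ∃ u ∈ gL j P, x = u.map j} := by
  classical
  let I : Type := Σ n : ℕ, {a : (Fin (n + 1) → ι) → L // P.IsT n a} × (Fin (n + 1) → ι)
  let M : I → ι × ι → L := fun i p => ∑ k : Fin (i.1 + 1),
    if i.2.2 k = p.1 then i.2.1.1 (Function.update i.2.2 k p.2) else 0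
  have hsum : ∀ {R : Type} [CommRing R] (i : I) (φ : L →+* R) (y : Matrix ι ι R),
      ∑ p : ι × ι, φ (M i p) * y p.1 p.2 = dv y (fun w => φ (i.2.1.1 w)) i.2.2 := by
    intro R _ i φ y
    rw [dv]
    simp only [M, map_sum, Finset.sum_mul]
    rw [Finset.sum_comm]
    refine Finset.sum_congr rfl fun k _ => ?_
    rw [Fintype.sum_prod_type, Finset.sum_eq_single (i.2.2 k)]
    · refine Finset.sum_congr rfl fun t _ => ?_
      rw [if_pos rfl, mul_comm]
    · intro b _ hb
      refine Finset.sum_eq_zero fun t _ => ?_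
      rw [if_neg (Ne.symm hb), map_zero, zero_mul]
    · intro h; exact absurd (Finset.mem_univ _) h
  have hv : ∀ i : I, ∑ p : ι × ι, j (M i p) * y p.1 p.2 = 0 := by
    intro i
    rw [hsum i j y]
    have h1 := mem_LT.1 hy i.1 _ i.2.1.2
    rw [dv_eq] at h1
    exact congrFun h1 i.2.2
  have h1 := desc_sol j M (v := fun p => y p.1 p.2) hv
  let φ : (ι × ι → ℂ) →ₗ[ℂ] Matrix ι ι ℂ :=
    { toFun := fun v => Matrix.of fun i k => v (i, k)
      map_add' := fun a b => rfl
      map_smul' := fun c a => rfl }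
  have h2 := Submodule.mem_map_of_mem (f := φ) h1
  rw [Submodule.map_span] at h2
  have h3 : φ (fun p => y p.1 p.2) = y := rfl
  rw [h3] at h2
  refine Submodule.span_mono ?_ h2
  rintro _ ⟨_, ⟨u, hu, rfl⟩, rfl⟩
  refine ⟨Matrix.of fun i k => u (i, k), ?_, rfl⟩
  change (Matrix.of fun i k => u (i, k)).map j ∈ LT (TT j P)
  rw [mem_LT]
  intro n a ha
  rw [dv_eq, dv_map]
  funext w
  have h4 := hu ⟨n, ⟨a, ha⟩, w⟩
  have h5 := hsum ⟨n, ⟨a, ha⟩, w⟩ (RingHom.id L) (Matrix.of fun i k => u (i, k))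
  simp only [RingHom.id_apply] at h5
  have h6 : dv (Matrix.of fun i k => u (i, k)) a w = 0 := h5.symm.trans h4
  rw [h6, map_zero]
  rfl

end Pool.Agent.L0h10.RQ
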