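import Pool.Agent.L0h10.RP.Lie

/-!
# Matrices with integral eigenvalues and their projectors
-/

set_option linter.unusedSectionVars false

namespace Pool.Agent.L0h10.RQ

open Matrix ComplexConjugate ComplexOrder

variable {ι : Type} [Fintype ι] [DecidableEq ι]

/-- The projectors to the eigenspaces of `y`. -/
structure IsPj (w : ℕ) (y : Matrix ι ι ℂ) (π : ℤ → Matrix ι ι ℂ) : Prop where
  sum : ∑ k ∈ Finset.Icc (-w : ℤ) w, π k = 1
  left : ∀ k ∈ Finset.Icc (-w : ℤ) w, y * π k = (k : ℂ) • π k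
  right : ∀ k ∈ Finset.Icc (-w : ℤ) w, π k * y = (k : ℂ) • π k

/-- The matrix `y` is diagonalisable with integral eigenvalues between `-w` and `w`. -/
def IsInt (w : ℕ) (y : Matrix ι ι ℂ) : Prop := ∃ π, IsPj w y π

namespace IsPj

variable {w : ℕ} {y : Matrix ι ι ℂ} {π π' : ℤ → Matrix ι ι ℂ}

lemma mul_ne (h : IsPj w y π) (h' : IsPj w y π') {k l : ℤ} (hk : k ∈ Finset.Icc (-w : ℤ) w)
    (hl : l ∈ Finset.Icc (-w : ℤ) w) (hkl : k ≠ l) : π k * π' l = 0 := by
  have h1 : (k : ℂ) • (π k * π' l) = (l : ℂ) • (π k * π' l) := by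
    rw [← Matrix.smul_mul, ← h.right k hk, Matrix.mul_assoc, h'.left l hl, Matrix.mul_smul]
  rw [← sub_eq_zero, ← sub_smul] at h1
  rcases smul_eq_zero.1 h1 with h2 | h2
  · exfalso
    apply hkl
    have h3 : (k : ℂ) = (l : ℂ) := sub_eq_zero.1 h2
    exact_mod_cast h3
  · exact h2

lemma mul_self' (h : IsPj w y π) (h' : IsPj w y π') {k : ℤ} (hk : k ∈ Finset.Icc (-w : ℤ) w) :
    π k * π' k = π k := by
  have h1 : π k * 1 = π k := Matrix.mul_one _
  rw [← h'.sum, Finset.mul_sum, Finset.sum_eq_single k] at h1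
  · exact h1
  · intro l hl hlk
    exact mul_ne h h' hk hl (Ne.symm hlk)
  · intro h2; exact absurd hk h2

lemma mul_self'' (h : IsPj w y π) (h' : IsPj w y π') {k : ℤ} (hk : k ∈ Finset.Icc (-w : ℤ) w) :
    π k * π' k = π' k := by
  have h1 : 1 * π' k = π' k := Matrix.one_mul _
  rw [← h.sum, Finset.sum_mul, Finset.sum_eq_single k] at h1
  · exact h1
  · intro l hl hlk
    exact mul_ne h h' hl hk hlk
  · intro h2; exact absurd hk h2

lemma unique (h : IsPj w y π) (h' : IsPj w y π') {k : ℤ} (hk : k ∈ Finset.Icc (-w : ℤ) w) :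
    π k = π' k := by
  rw [← mul_self' h h' hk, mul_self'' h h' hk]

lemma mul (h : IsPj w y π) {k l : ℤ} (hk : k ∈ Finset.Icc (-w : ℤ) w)
    (hl : l ∈ Finset.Icc (-w : ℤ) w) : π k * π l = if k = l then π k else 0 := by
  split_ifs with hkl
  · subst hkl
    exact mul_self' h h hk
  · exact mul_ne h h hk hl hkl

lemma eq_sum (h : IsPj w y π) : ∑ k ∈ Finset.Icc (-w : ℤ) w, (k : ℂ) • π k = y := by
  have h1 : y * 1 = y := Matrix.mul_one _
  rw [← h.sum, Finset.mul_sum] at h1
  rw [← h1]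
  exact Finset.sum_congr rfl fun k hk => (h.left k hk).symm

/-- Matrices which commute with `y` commute with the projectors. -/
lemma comm (h : IsPj w y π) {c : Matrix ι ι ℂ} (hc : c * y = y * c) {k : ℤ}
    (hk : k ∈ Finset.Icc (-w : ℤ) w) : c * π k = π k * c := by
  have h1 : ∀ l ∈ Finset.Icc (-w : ℤ) w, l ≠ k → π l * c * π k = 0 := by
    intro l hl hlk
    have h2 : (l : ℂ) • (π l * c * π k) = (k : ℂ) • (π l * c * π k) := by
      calc (l : ℂ) • (π l * c * π k) = (π l * y) * c * π k := by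
            rw [h.right l hl, Matrix.smul_mul, Matrix.smul_mul]
        _ = π l * c * (y * π k) := by
            rw [Matrix.mul_assoc (π l), ← hc]; simp only [Matrix.mul_assoc]
        _ = _ := by rw [h.left k hk, Matrix.mul_smul]
    rw [← sub_eq_zero, ← sub_smul] at h2
    rcases smul_eq_zero.1 h2 with h3 | h3
    · exfalso
      apply hlk
      have h4 : (l : ℂ) = (k : ℂ) := sub_eq_zero.1 h3
      exact_mod_cast h4
    · exact h3
  have h2 : ∀ l ∈ Finset.Icc (-w : ℤ) w, l ≠ k → π k * c * π l = 0 := by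
    intro l hl hlk
    have h2 : (k : ℂ) • (π k * c * π l) = (l : ℂ) • (π k * c * π l) := by
      calc (k : ℂ) • (π k * c * π l) = (π k * y) * c * π l := by
            rw [h.right k hk, Matrix.smul_mul, Matrix.smul_mul]
        _ = π k * c * (y * π l) := by
            rw [Matrix.mul_assoc (π k), ← hc]; simp only [Matrix.mul_assoc]
        _ = _ := by rw [h.left l hl, Matrix.mul_smul]
    rw [← sub_eq_zero, ← sub_smul] at h2
    rcases smul_eq_zero.1 h2 with h3 | h3
    · exfalso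
      apply hlk
      have h4 : (k : ℂ) = (l : ℂ) := sub_eq_zero.1 h3
      exact_mod_cast h4.symm
    · exact h3
  have e1 : c * π k = π k * c * π k := by
    have h3 : 1 * (c * π k) = c * π k := Matrix.one_mul _
    rw [← h.sum, Finset.sum_mul, Finset.sum_eq_single k] at h3
    · rw [← h3, Matrix.mul_assoc]
    · intro l hl hlk
      rw [← Matrix.mul_assoc]
      exact h1 l hl hlk
    · intro h4; exact absurd hk h4
  have e2 : π k * c = π k * c * π k := by
    have h3 : (π k * c) * 1 = π k * c := Matrix.mul_one _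
    rw [← h.sum, Finset.mul_sum, Finset.sum_eq_single k] at h3
    · exact h3.symm
    · intro l hl hlk
      exact h2 l hl hlk
    · intro h4; exact absurd hk h4
  rw [e1, ← e2]

lemma sum_neg' (w : ℕ) {M : Type*} [AddCommMonoid M] (f : ℤ → M) :
    ∑ k ∈ Finset.Icc (-w : ℤ) w, f (-k) = ∑ k ∈ Finset.Icc (-w : ℤ) w, f k := by
  refine Finset.sum_nbij' (fun k => -k) (fun k => -k) ?_ ?_ ?_ ?_ ?_
  · intro a ha; rw [Finset.mem_Icc] at *; omega
  · intro a ha; rw [Finset.mem_Icc] at *; omega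
  · intro a _; simp
  · intro a _; simp
  · intro a _; rfl

lemma neg_mem' {w : ℕ} {k : ℤ} (hk : k ∈ Finset.Icc (-w : ℤ) w) :
    -k ∈ Finset.Icc (-w : ℤ) w := by
  rw [Finset.mem_Icc] at *; omega

/-- The negative. -/
lemma neg (h : IsPj w y π) : IsPj w (-y) fun k => π (-k) where
  sum := by rw [sum_neg' w π]; exact h.sum
  left k hk := by
    rw [Matrix.neg_mul, h.left _ (neg_mem' hk), ← neg_smul]
    congr 1
    push_cast
    ring
  right k hk := by
    rw [Matrix.mul_neg, h.right _ (neg_mem' hk), ← neg_smul]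
    congr 1
    push_cast
    ring

lemma map_mul_conj (x z : Matrix ι ι ℂ) :
    (x * z).map conj = x.map conj * z.map conj := Matrix.map_mul (f := (starRingEnd ℂ))

/-- The complex conjugate. -/
lemma cjg (h : IsPj w y π) : IsPj w (y.map conj) fun k => (π k).map conj where
  sum := by
    have h1 := congrArg (fun x : Matrix ι ι ℂ => x.map conj) h.sum
    beta_reduce at h1
    rw [Matrix.map_one _ (map_zero _) (map_one _)] at h1
    rw [← h1]
    ext i j
    rw [Matrix.sum_apply, Matrix.map_apply, Matrix.sum_apply, map_sum]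
    rfl
  left k hk := by
    rw [← map_mul_conj, h.left k hk]
    ext i j
    rw [Matrix.map_apply, Matrix.smul_apply, Matrix.smul_apply, Matrix.map_apply, smul_eq_mul,
      smul_eq_mul, map_mul, map_intCast]
  right k hk := by
    rw [← map_mul_conj, h.right k hk]
    ext i j
    rw [Matrix.map_apply, Matrix.smul_apply, Matrix.smul_apply, Matrix.map_apply, smul_eq_mul,
      smul_eq_mul, map_mul, map_intCast]

/-- Conjugation. -/
lemma cng (h : IsPj w y π) {g g' : Matrix ι ι ℂ} (hg : g * g' = 1) :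
    IsPj w (g' * y * g) fun k => g' * π k * g where
  sum := by
    rw [← Finset.sum_mul, ← Finset.mul_sum, h.sum, Matrix.mul_one, mul_eq_one_comm.1 hg]
  left k hk := by
    calc g' * y * g * (g' * π k * g) = g' * y * (g * g') * π k * g := by
          simp only [Matrix.mul_assoc]
      _ = g' * (y * π k) * g := by rw [hg, Matrix.mul_one]; simp only [Matrix.mul_assoc]
      _ = _ := by rw [h.left k hk, Matrix.mul_smul, Matrix.smul_mul]
  right k hk := by
    calc (g' * π k * g) * (g' * y * g) = g' * π k * (g * g') * y * g := by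
          simp only [Matrix.mul_assoc]
      _ = g' * (π k * y) * g := by rw [hg, Matrix.mul_one]; simp only [Matrix.mul_assoc]
      _ = _ := by rw [h.right k hk, Matrix.mul_smul, Matrix.smul_mul]

/-- The transpose. -/
lemma transpose (h : IsPj w y π) : IsPj w yᵀ fun k => (π k)ᵀ where
  sum := by rw [← Matrix.transpose_sum, h.sum, Matrix.transpose_one]
  left k hk := by rw [← Matrix.transpose_mul, h.right k hk, Matrix.transpose_smul]
  right k hk := by rw [← Matrix.transpose_mul, h.left k hk, Matrix.transpose_smul]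

end IsPj

lemma IsInt.cjg {w : ℕ} {y : Matrix ι ι ℂ} (h : IsInt w y) : IsInt w (y.map conj) := by
  obtain ⟨π, h⟩ := h
  exact ⟨_, h.cjg⟩

lemma IsInt.neg {w : ℕ} {y : Matrix ι ι ℂ} (h : IsInt w y) : IsInt w (-y) := by
  obtain ⟨π, h⟩ := h
  exact ⟨_, h.neg⟩

lemma IsInt.cng {w : ℕ} {y : Matrix ι ι ℂ} (h : IsInt w y) {g g' : Matrix ι ι ℂ}
    (hg : g * g' = 1) : IsInt w (g' * y * g) := by
  obtain ⟨π, h⟩ := h
  exact ⟨_, h.cng hg⟩

lemma IsInt.zero (w : ℕ) : IsInt w (0 : Matrix ι ι ℂ) := by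
  refine ⟨fun k => if k = 0 then 1 else 0, ?_, fun k _ => ?_, fun k _ => ?_⟩
  · rw [Finset.sum_ite_eq', if_pos]
    rw [Finset.mem_Icc]
    omega
  · split_ifs with hk
    · rw [hk, Int.cast_zero, zero_smul, Matrix.zero_mul]
    · rw [Matrix.mul_zero, smul_zero]
  · split_ifs with hk
    · rw [hk, Int.cast_zero, zero_smul, Matrix.mul_zero]
    · rw [Matrix.zero_mul, smul_zero]

/-- The trace of an idempotent times a matrix. -/
lemma trace_idem {e c : Matrix ι ι ℂ} (he : e * e = e) (h1 : c * e = e * c)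
    (h2 : cᴴ * e = e * cᴴ) : conj (e * c).trace = (e * cᴴ).trace := by
  obtain ⟨G, hG⟩ : ∃ G, G = eᴴ * e + (1 - e)ᴴ * (1 - e) := ⟨_, rfl⟩
  have hG0 : ∀ v, G *ᵥ v = 0 → v = 0 := by
    intro v hv
    have h3 : star v ⬝ᵥ (G *ᵥ v) = star (e *ᵥ v) ⬝ᵥ (e *ᵥ v) +
        star ((1 - e) *ᵥ v) ⬝ᵥ ((1 - e) *ᵥ v) := by
      rw [hG, Matrix.add_mulVec, dotProduct_add, ← Matrix.mulVec_mulVec, ← Matrix.mulVec_mulVec,
        Matrix.dotProduct_mulVec, Matrix.dotProduct_mulVec _ ((1 - e)ᴴ), Matrix.star_mulVec,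
        Matrix.star_mulVec]
    rw [hv, dotProduct_zero] at h3
    have h4 : 0 ≤ star (e *ᵥ v) ⬝ᵥ (e *ᵥ v) := dotProduct_star_self_nonneg _
    have h5 : 0 ≤ star ((1 - e) *ᵥ v) ⬝ᵥ ((1 - e) *ᵥ v) := dotProduct_star_self_nonneg _
    have h6 : star (e *ᵥ v) ⬝ᵥ (e *ᵥ v) = 0 :=
      (add_eq_zero_iff_of_nonneg h4 h5).1 h3.symm |>.1
    have h7 : star ((1 - e) *ᵥ v) ⬝ᵥ ((1 - e) *ᵥ v) = 0 :=
      (add_eq_zero_iff_of_nonneg h4 h5).1 h3.symm |>.2
    have h8 : e *ᵥ v = 0 := dotProduct_star_self_eq_zero.1 h6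
    have h9 : (1 - e) *ᵥ v = 0 := dotProduct_star_self_eq_zero.1 h7
    rw [Matrix.sub_mulVec, Matrix.one_mulVec, h8, sub_zero] at h9
    exact h9
  have hGu : IsUnit G := by
    rw [← Matrix.mulVec_injective_iff_isUnit]
    intro a b hab
    have := hG0 (a - b) (by rw [Matrix.mulVec_sub, sub_eq_zero]; exact hab)
    exact sub_eq_zero.1 this
  obtain ⟨u, hu⟩ := hGu
  obtain ⟨G', hG'⟩ : ∃ G' : Matrix ι ι ℂ, G' = ((u⁻¹ : (Matrix ι ι ℂ)ˣ) : Matrix ι ι ℂ) := ⟨_, rfl⟩
  have hGG : G * G' = 1 := by rw [← hu, hG']; exact u.mul_inv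
  have hGG' : G' * G = 1 := by rw [← hu, hG']; exact u.inv_mul
  have k1 : (1 - e) * e = 0 := by rw [Matrix.sub_mul, Matrix.one_mul, he, sub_self]
  have k2 : G * e = eᴴ * e := by
    rw [hG, Matrix.add_mul, Matrix.mul_assoc, he, Matrix.mul_assoc, k1, Matrix.mul_zero, add_zero]
  have k3 : eᴴ * G = eᴴ * e := by
    have h3 := congrArg Matrix.conjTranspose k2
    rw [Matrix.conjTranspose_mul, Matrix.conjTranspose_mul,
      Matrix.conjTranspose_conjTranspose] at h3
    have h4 : Gᴴ = G := by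
      rw [hG, Matrix.conjTranspose_add, Matrix.conjTranspose_mul, Matrix.conjTranspose_mul,
        Matrix.conjTranspose_conjTranspose, Matrix.conjTranspose_conjTranspose]
    rw [h4] at h3
    exact h3
  have k4 : eᴴ = G * e * G' := by
    calc eᴴ = eᴴ * (G * G') := by rw [hGG, Matrix.mul_one]
      _ = (eᴴ * G) * G' := by rw [Matrix.mul_assoc]
      _ = _ := by rw [k3, ← k2]
  have c1 : cᴴ * eᴴ = eᴴ * cᴴ := by
    have h3 := congrArg Matrix.conjTranspose h1
    rw [Matrix.conjTranspose_mul, Matrix.conjTranspose_mul] at h3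
    exact h3.symm
  have c2 : cᴴ * G = G * cᴴ := by
    have e1 : cᴴ * (eᴴ * e) = (eᴴ * e) * cᴴ := by
      rw [← Matrix.mul_assoc, c1, Matrix.mul_assoc, h2, Matrix.mul_assoc]
    have e2 : cᴴ * ((1 - e)ᴴ * (1 - e)) = ((1 - e)ᴴ * (1 - e)) * cᴴ := by
      have e3 : cᴴ * (1 - e)ᴴ = (1 - e)ᴴ * cᴴ := by
        rw [Matrix.conjTranspose_sub, Matrix.conjTranspose_one, Matrix.mul_sub, Matrix.sub_mul, c1,
          Matrix.mul_one, Matrix.one_mul]
      have e4 : cᴴ * (1 - e) = (1 - e) * cᴴ := by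
        rw [Matrix.mul_sub, Matrix.sub_mul, h2, Matrix.mul_one, Matrix.one_mul]
      rw [← Matrix.mul_assoc, e3, Matrix.mul_assoc, e4, Matrix.mul_assoc]
    rw [hG, Matrix.mul_add, Matrix.add_mul, e1, e2]
  have t1 : conj (e * c).trace = ((e * c)ᴴ).trace := (Matrix.trace_conjTranspose _).symm
  rw [t1, Matrix.conjTranspose_mul, k4]
  calc (cᴴ * (G * e * G')).trace = ((cᴴ * G) * e * G').trace := by simp only [Matrix.mul_assoc]
    _ = (G * (cᴴ * e) * G').trace := by rw [c2]; simp only [Matrix.mul_assoc]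
    _ = (G' * (G * (cᴴ * e))).trace := Matrix.trace_mul_comm _ _
    _ = (cᴴ * e).trace := by rw [← Matrix.mul_assoc, hGG', Matrix.one_mul]
    _ = _ := by rw [h2]

end Pool.Agent.L0h10.RQ
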