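import Pool.Agent.L0h10.RQ.Gal

/-!
# The projector to the Lie algebra of the Tate arrays
-/

set_option linter.unusedSectionVars false

namespace Pool.Agent.L0h10.RQ

open Matrix
open Pool.Agent.N996.BP Pool.Agent.N996.FP
open Pool.Agent.L0h10.TS (ar2 ar2_inj ar2_surj dk_ar2 kp_ar2 dk_rei dk_empty dk_mulVec_apply GRep
  desc_sol dv dv_eq dv_map cL)

variable {ι : Type} [Fintype ι] [DecidableEq ι] {deg : ι → ℕ} {L : Type} [Field L] [CharZero L]
  {j : L →+* ℂ} {Γ : Type*} [Group Γ] [TopologicalSpace Γ] {P : GRep deg L Γ}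
  {H : HData ι}

/-- The form is homogeneous. -/
structure Hom2 (deg : ι → ℕ) (H : HData ι) : Prop where
  Q : ∀ i k, deg i ≠ deg k → H.Qr i k = 0
  Qi : ∀ i k, deg i ≠ deg k → H.Qir i k = 0

variable (j P H) in
/-- The form is invariant under the normalised action. -/
def InvQ (Δ : OpenSubgroup Γ) : Prop :=
  ∀ g ∈ Δ, ∀ s : ℂ, s ^ 2 = j (P.χ g) → (Rs j P s g)ᵀ * cQ H.Qr * Rs j P s g = cQ H.Qr

section Q

variable {Δ : OpenSubgroup Γ} (hQ : InvQ j P H Δ) {g : Γ} (hg : g ∈ Δ) {s : ℂ}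
  (hs : s ^ 2 = j (P.χ g))

variable (j P H) in
/-- The inverse of the normalised action. -/
noncomputable def Ri (s : ℂ) (g : Γ) : Matrix ι ι ℂ := cQ H.Qir * (Rs j P s g)ᵀ * cQ H.Qr

include hQ hg hs

lemma Ri_Rs : Ri j P H s g * Rs j P s g = 1 := by
  rw [Ri, Matrix.mul_assoc, Matrix.mul_assoc, ← Matrix.mul_assoc _ (cQ H.Qr), hQ g hg s hs, Qi_Q]

lemma Rs_Ri : Rs j P s g * Ri j P H s g = 1 := mul_eq_one_comm.1 (Ri_Rs hQ hg hs)

lemma Rs_Qi : Rs j P s g * cQ H.Qir * (Rs j P s g)ᵀ = cQ H.Qir := by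
  have h1 := Rs_Ri hQ hg hs
  rw [Ri] at h1
  calc Rs j P s g * cQ H.Qir * (Rs j P s g)ᵀ =
      (Rs j P s g * (cQ H.Qir * (Rs j P s g)ᵀ * cQ H.Qr)) * cQ H.Qir := by
        simp only [Matrix.mul_assoc]
        rw [Q_Qi, Matrix.mul_one]
    _ = _ := by rw [h1, Matrix.one_mul]

lemma RsT_Q : (Rs j P s g)ᵀ * cQ H.Qr = cQ H.Qr * Ri j P H s g := by
  rw [Ri, ← Matrix.mul_assoc, ← Matrix.mul_assoc, Q_Qi, Matrix.one_mul]

end Q

lemma exists_sq (z : ℂ) : ∃ s : ℂ, s ^ 2 = z := by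
  obtain ⟨s, hs⟩ := IsAlgClosed.exists_pow_nat_eq z (n := 2) two_pos
  exact ⟨s, hs⟩

/-- The parts of the form are Tate arrays. -/
lemma Qi_TT (hd : Hom2 deg H) {Δ : OpenSubgroup Γ} (hQ : InvQ j P H Δ) :
    ar2 (cQ H.Qir) ∈ TT j P 1 := by
  refine mem_TT (Δ := Δ) (fun w hw => ?_) fun g hg => ?_
  · have h1 : deg (w 0) = deg (w 1) := by
      by_contra h2
      apply hw
      rw [ar2, cQ, Matrix.map_apply, hd.Qi _ _ h2, Rat.cast_zero]
    rw [Fin.sum_univ_two, h1]
    exact ⟨_, rfl⟩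
  · obtain ⟨s, hs⟩ := exists_sq (j (P.χ g))
    refine ⟨s, hs, ?_⟩
    have h1 := kp_ar2 (Rs j P s g) (cQ H.Qir)
    rw [Rs_Qi hQ hg hs] at h1
    exact h1

/-- The projector of degree `d`. -/
def pd (deg : ι → ℕ) (d : ℕ) : Matrix ι ι ℂ := Matrix.diagonal fun i => if deg i = d then 1 else 0

lemma Rs_deg {s : ℂ} {g : Γ} {i k : ι} (h : deg i ≠ deg k) : Rs j P s g i k = 0 := by
  rw [Rs, Matrix.diagonal_mul, Matrix.map_apply, P.deg' g _ _ h, map_zero, mul_zero]

lemma pd_comm {M : Matrix ι ι ℂ} (hM : ∀ i k, deg i ≠ deg k → M i k = 0) (d : ℕ) :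
    M * pd deg d = pd deg d * M := by
  ext i k
  rw [pd, Matrix.mul_diagonal, Matrix.diagonal_mul]
  by_cases h : deg i = deg k
  · rw [h]; ring
  · rw [hM i k h]; ring

lemma pd_TT (hd : Hom2 deg H) {Δ : OpenSubgroup Γ} (hQ : InvQ j P H Δ) (d : ℕ) :
    ar2 (pd deg d * cQ H.Qir) ∈ TT j P 1 := by
  refine mem_TT (Δ := Δ) (fun w hw => ?_) fun g hg => ?_
  · have h1 : deg (w 0) = deg (w 1) := by
      by_contra h2
      apply hw
      rw [ar2, pd, Matrix.diagonal_mul, cQ, Matrix.map_apply, hd.Qi _ _ h2, Rat.cast_zero,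
        mul_zero]
    rw [Fin.sum_univ_two, h1]
    exact ⟨_, rfl⟩
  · obtain ⟨s, hs⟩ := exists_sq (j (P.χ g))
    refine ⟨s, hs, ?_⟩
    have h1 := kp_ar2 (Rs j P s g) (pd deg d * cQ H.Qir)
    rw [← Matrix.mul_assoc (Rs j P s g), pd_comm (M := Rs j P s g) (fun i k h => Rs_deg h), Matrix.mul_assoc (pd deg d),
      Matrix.mul_assoc (pd deg d), Rs_Qi hQ hg hs] at h1
    exact h1

/-- The matrices which kill the Tate arrays are skew-symmetric. -/
lemma LT_skew (hd : Hom2 deg H) {Δ : OpenSubgroup Γ} (hQ : InvQ j P H Δ) {y : Matrix ι ι ℂ}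
    (hy : y ∈ LT (TT j P)) : y * cQ H.Qir + cQ H.Qir * yᵀ = 0 := by
  have h1 := hy 1 _ (Qi_TT hd hQ)
  rw [dk_ar2] at h1
  exact ar2_inj h1

/-- They preserve the degrees. -/
lemma LT_deg (hd : Hom2 deg H) {Δ : OpenSubgroup Γ} (hQ : InvQ j P H Δ) {y : Matrix ι ι ℂ}
    (hy : y ∈ LT (TT j P)) {i k : ι} (hik : deg i ≠ deg k) : y i k = 0 := by
  have h1 := hy 1 _ (pd_TT hd hQ (deg i))
  rw [dk_ar2] at h1
  have h2 : y * (pd deg (deg i) * cQ H.Qir) + pd deg (deg i) * cQ H.Qir * yᵀ = 0 := ar2_inj h1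
  have h3 : cQ H.Qir * yᵀ = -(y * cQ H.Qir) := by
    rw [eq_neg_iff_add_eq_zero, add_comm]; exact LT_skew hd hQ hy
  rw [Matrix.mul_assoc (pd deg (deg i)), h3, Matrix.mul_neg, add_neg_eq_zero] at h2
  have h4 : y * pd deg (deg i) = pd deg (deg i) * y := by
    have h5 := congrArg (fun z => z * cQ H.Qr) h2
    beta_reduce at h5
    simp only [Matrix.mul_assoc, Qi_Q, Matrix.mul_one] at h5
    exact h5
  have h5 := congrFun (congrFun h4 i) k
  rw [pd, Matrix.mul_diagonal, Matrix.diagonal_mul, if_neg (Ne.symm hik), if_pos rfl, mul_zero,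
    one_mul] at h5
  exact h5.symm

/-- The part which preserves the degrees. -/
def gr {R : Type*} [Zero R] (deg : ι → ℕ) (x : Matrix ι ι R) : Matrix ι ι R :=
  Matrix.of fun i k => if deg i = deg k then x i k else 0

lemma gr_eq {R : Type*} [Zero R] {x : Matrix ι ι R} (h : ∀ i k, deg i ≠ deg k → x i k = 0) :
    gr deg x = x := by
  ext i k
  rw [gr, Matrix.of_apply]
  split_ifs with h1
  · rfl
  · exact (h i k h1).symm

lemma gr_mul_left {R : Type*} [CommRing R] {c x : Matrix ι ι R} (hc : ∀ i k, deg i ≠ deg k → c i k = 0) :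
    gr deg (c * x) = c * gr deg x := by
  ext i k
  rw [gr, Matrix.of_apply, Matrix.mul_apply, Matrix.mul_apply]
  by_cases h : deg i = deg k
  · rw [if_pos h]
    refine Finset.sum_congr rfl fun t _ => ?_
    rw [gr, Matrix.of_apply]
    by_cases h1 : deg i = deg t
    · rw [if_pos (h1 ▸ h)]
    · rw [hc i t h1, zero_mul, zero_mul]
  · rw [if_neg h]
    refine (Finset.sum_eq_zero fun t _ => ?_).symm
    rw [gr, Matrix.of_apply]
    by_cases h1 : deg i = deg t
    · rw [if_neg (h1 ▸ h), mul_zero]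
    · rw [hc i t h1, zero_mul]

lemma gr_mul_right {R : Type*} [CommRing R] {c x : Matrix ι ι R} (hc : ∀ i k, deg i ≠ deg k → c i k = 0) :
    gr deg (x * c) = gr deg x * c := by
  ext i k
  rw [gr, Matrix.of_apply, Matrix.mul_apply, Matrix.mul_apply]
  by_cases h : deg i = deg k
  · rw [if_pos h]
    refine Finset.sum_congr rfl fun t _ => ?_
    rw [gr, Matrix.of_apply]
    by_cases h1 : deg t = deg k
    · rw [if_pos (h.trans h1.symm)]
    · rw [hc t k h1, mul_zero, mul_zero]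
  · rw [if_neg h]
    refine (Finset.sum_eq_zero fun t _ => ?_).symm
    rw [gr, Matrix.of_apply]
    by_cases h1 : deg t = deg k
    · rw [if_neg fun h2 => h (h2.trans h1), zero_mul]
    · rw [hc t k h1, mul_zero]

/-- The degree preserving part as a linear map. -/
def grL (deg : ι → ℕ) : Matrix ι ι ℂ →ₗ[ℂ] Matrix ι ι ℂ where
  toFun := gr deg
  map_add' x y := by
    ext i k
    rw [gr, Matrix.add_apply, gr, gr, Matrix.of_apply, Matrix.of_apply, Matrix.of_apply,
      Matrix.add_apply]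
    split_ifs <;> simp
  map_smul' c x := by
    ext i k
    rw [RingHom.id_apply, gr, Matrix.smul_apply, gr, Matrix.of_apply, Matrix.of_apply,
      Matrix.smul_apply]
    split_ifs <;> simp

section Ext

variable (j) in
/-- The extension of a linear map to complex coefficients. -/
noncomputable def exC (f : Matrix ι ι L →ₗ[L] Matrix ι ι L) : Matrix ι ι ℂ →ₗ[ℂ] Matrix ι ι ℂ where
  toFun x := ∑ a, ∑ b, x a b • (f (Matrix.single a b 1)).map j
  map_add' x y := by
    rw [← Finset.sum_add_distrib]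
    refine Finset.sum_congr rfl fun a _ => ?_
    rw [← Finset.sum_add_distrib]
    refine Finset.sum_congr rfl fun b _ => ?_
    rw [Matrix.add_apply, add_smul]
  map_smul' c x := by
    rw [RingHom.id_apply, Finset.smul_sum]
    refine Finset.sum_congr rfl fun a _ => ?_
    rw [Finset.smul_sum]
    refine Finset.sum_congr rfl fun b _ => ?_
    rw [Matrix.smul_apply, smul_smul, smul_eq_mul]

lemma exC_apply (f : Matrix ι ι L →ₗ[L] Matrix ι ι L) (x : Matrix ι ι ℂ) :
    exC j f x = ∑ a, ∑ b, x a b • (f (Matrix.single a b 1)).map j := rfl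

lemma exC_map (f : Matrix ι ι L →ₗ[L] Matrix ι ι L) (x : Matrix ι ι L) :
    exC j f (x.map j) = (f x).map j := by
  rw [exC_apply]
  have h1 : x = ∑ a, ∑ b, x a b • Matrix.single a b (1 : L) := by
    conv_lhs => rw [Matrix.matrix_eq_sum_single x]
    refine Finset.sum_congr rfl fun a _ => Finset.sum_congr rfl fun b _ => ?_
    rw [Matrix.smul_single, smul_eq_mul, mul_one]
  conv_rhs => rw [h1, map_sum]
  ext i k
  rw [Matrix.sum_apply, Matrix.map_apply, Matrix.sum_apply, map_sum]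
  refine Finset.sum_congr rfl fun a _ => ?_
  rw [Matrix.sum_apply, map_sum (f : Matrix ι ι L →ₗ[L] Matrix ι ι L), Matrix.sum_apply, map_sum]
  refine Finset.sum_congr rfl fun b _ => ?_
  rw [map_smul, Matrix.smul_apply, Matrix.smul_apply, smul_eq_mul, smul_eq_mul, map_mul]
  rfl

/-- Linear maps which agree on the matrices over `L` are equal. -/
lemma ext_L {f g : Matrix ι ι ℂ →ₗ[ℂ] Matrix ι ι ℂ}
    (h : ∀ x : Matrix ι ι L, f (x.map j) = g (x.map j)) : f = g := by
  refine LinearMap.ext fun x => ?_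
  have h1 : x = ∑ a, ∑ b, x a b • (Matrix.single a b (1 : L)).map j := by
    conv_lhs => rw [Matrix.matrix_eq_sum_single x]
    refine Finset.sum_congr rfl fun a _ => Finset.sum_congr rfl fun b _ => ?_
    have h2 : (Matrix.single a b (1 : L)).map j = Matrix.single a b (1 : ℂ) := by
      rw [Matrix.map_single, map_one]
    rw [h2, Matrix.smul_single, smul_eq_mul, mul_one]
  rw [h1]
  simp only [map_sum, map_smul, h]

end Ext

end Pool.Agent.L0h10.RQ
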