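import Pool.Agent.L0h10.RQ.Prj

/-!
# The projector to the Lie algebra of the Tate arrays is a combination of Tate arrays
-/

set_option linter.unusedSectionVars false

namespace Pool.Agent.L0h10.RQ

open Matrix
open Pool.Agent.N996.BP Pool.Agent.N996.FP
open Pool.Agent.L0h10.TS (ar2 ar2_inj ar2_surj dk_ar2 kp_ar2 dk_rei dk_empty dk_mulVec_apply GRep
  desc_sol dv dv_eq dv_map cL)

variable {ι : Type} [Fintype ι] [DecidableEq ι] {deg : ι → ℕ} {L : Type} [Field L] [CharZero L]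
  {j : L →+* ℂ} {Γ : Type*} [Group Γ] [TopologicalSpace Γ] {P : GRep deg L Γ}
  {H : HData ι}

variable (j P) in
/-- There are equivariant projectors to the Lie algebra. -/
def HasPr : Prop := ∀ Δ : OpenSubgroup Γ,
  ∃ f : Matrix ι ι L →ₗ[L] Matrix ι ι L, (∀ x, f x ∈ gL j P) ∧ (∀ x ∈ gL j P, f x = x) ∧
    ∀ g ∈ Δ, ∀ x, f (P.R g * x * P.R g⁻¹) = P.R g * f x * P.R g⁻¹

lemma map_mul_j (x y : Matrix ι ι L) : (x * y).map j = x.map j * y.map j :=
  Matrix.map_mul (f := j)

/-- The equivariant projector over `L`. -/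
lemma hasPr_of [IsTopologicalGroup Γ] {U' : Submodule L (Matrix ι ι L)}
    (hc : IsCompl (gL j P) U') (hU' : ∀ g : Γ, ∀ x ∈ U', P.R g * x * P.R g⁻¹ ∈ U') :
    HasPr j P := by
  intro Δ
  have hgL : ∀ g : Γ, ∀ x ∈ gL j P, P.R g * x * P.R g⁻¹ ∈ gL j P := by
    intro g x hx
    change (P.R g * x * P.R g⁻¹).map j ∈ LT (TT j P)
    rw [map_mul_j, map_mul_j]
    exact LT_conj hx g
  let f : Matrix ι ι L →ₗ[L] Matrix ι ι L :=
    (gL j P).subtype ∘ₗ (gL j P).projectionOnto U' hc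
  have hf1 : ∀ x ∈ gL j P, f x = x := by
    intro x hx
    change (((gL j P).projectionOnto U' hc x : gL j P) : Matrix ι ι L) = x
    have := Submodule.projectionOnto_apply_left hc ⟨x, hx⟩
    rw [this]
  have hf2 : ∀ x ∈ U', f x = 0 := by
    intro x hx
    change (((gL j P).projectionOnto U' hc x : gL j P) : Matrix ι ι L) = 0
    have := Submodule.projectionOnto_apply_right hc ⟨x, hx⟩
    rw [this]
    rfl
  refine ⟨f, fun x => ((gL j P).projectionOnto U' hc x).2, hf1, fun g _ x => ?_⟩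
  have hx : x ∈ gL j P ⊔ U' := by rw [hc.sup_eq_top]; exact Submodule.mem_top
  obtain ⟨a, ha, b, hb, rfl⟩ := Submodule.mem_sup.1 hx
  rw [Matrix.mul_add, Matrix.add_mul, map_add, hf1 _ (hgL g a ha), hf2 _ (hU' g b hb),
    map_add, hf1 a ha, hf2 b hb, add_zero, add_zero]

section F

variable (f : Matrix ι ι L →ₗ[L] Matrix ι ι L)

/-- The matrix of an array with two indices. -/
def mt2 : ((Fin (1 + 1) → ι) → ℂ) →ₗ[ℂ] Matrix ι ι ℂ where
  toFun v := Matrix.of fun i k => v ![i, k]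
  map_add' _ _ := rfl
  map_smul' _ _ := rfl

lemma mt2_ar2 (M : Matrix ι ι ℂ) : mt2 (ar2 M) = M := rfl

/-- The array of a matrix as a linear map. -/
def ar2L : Matrix ι ι ℂ →ₗ[ℂ] ((Fin (1 + 1) → ι) → ℂ) where
  toFun := ar2
  map_add' _ _ := rfl
  map_smul' _ _ := rfl

variable (deg H) in
/-- The operator on arrays given by a linear map on matrices. -/
noncomputable def PhF (F : Matrix ι ι ℂ →ₗ[ℂ] Matrix ι ι ℂ) :
    ((Fin (1 + 1) → ι) → ℂ) →ₗ[ℂ] ((Fin (1 + 1) → ι) → ℂ) :=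
  ar2L ∘ₗ LinearMap.mulRight ℂ (cQ H.Qir) ∘ₗ F ∘ₗ grL deg ∘ₗ LinearMap.mulRight ℂ (cQ H.Qr) ∘ₗ mt2

lemma PhF_ar2 (F : Matrix ι ι ℂ →ₗ[ℂ] Matrix ι ι ℂ) (M : Matrix ι ι ℂ) :
    PhF deg H F (ar2 M) = ar2 (F (gr deg (M * cQ H.Qr)) * cQ H.Qir) := rfl

lemma surj_ar2 (v : (Fin (1 + 1) → ι) → ℂ) : ∃ M : Matrix ι ι ℂ, v = ar2 M := ar2_surj v

end F

/-- The extended projector has values in the Lie algebra. -/
lemma exC_mem {f : Matrix ι ι L →ₗ[L] Matrix ι ι L} (hf : ∀ x, f x ∈ gL j P) (x : Matrix ι ι ℂ) :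
    exC j f x ∈ LT (TT j P) := by
  rw [exC_apply]
  refine Submodule.sum_mem _ fun a _ => Submodule.sum_mem _ fun b _ =>
    Submodule.smul_mem _ _ ?_
  exact hf _

lemma exC_id {f : Matrix ι ι L →ₗ[L] Matrix ι ι L} (hf : ∀ x ∈ gL j P, f x = x)
    {x : Matrix ι ι ℂ} (hx : x ∈ LT (TT j P)) : exC j f x = x := by
  have h1 := LT_span hx
  clear hx
  induction h1 using Submodule.span_induction with
  | mem y hy => obtain ⟨u, hu, rfl⟩ := hy; rw [exC_map, hf u hu]
  | zero => rw [map_zero]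
  | add a b _ _ ha hb => rw [map_add, ha, hb]
  | smul r a _ ha => rw [map_smul, ha]

lemma exC_conj {f : Matrix ι ι L →ₗ[L] Matrix ι ι L} {g : Γ}
    (hf : ∀ x, f (P.R g * x * P.R g⁻¹) = P.R g * f x * P.R g⁻¹) (x : Matrix ι ι ℂ) :
    exC j f ((P.R g).map j * x * (P.R g⁻¹).map j) =
      (P.R g).map j * exC j f x * (P.R g⁻¹).map j := by
  have h1 : exC j f ∘ₗ (LinearMap.mulRight ℂ ((P.R g⁻¹).map j) ∘ₗ
      LinearMap.mulLeft ℂ ((P.R g).map j)) = (LinearMap.mulRight ℂ ((P.R g⁻¹).map j) ∘ₗ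
      LinearMap.mulLeft ℂ ((P.R g).map j)) ∘ₗ exC j f := by
    refine ext_L (j := j) fun x => ?_
    change exC j f ((P.R g).map j * x.map j * (P.R g⁻¹).map j) =
      (P.R g).map j * exC j f (x.map j) * (P.R g⁻¹).map j
    rw [← map_mul_j, ← map_mul_j, exC_map, exC_map, hf, map_mul_j, map_mul_j]
  exact LinearMap.congr_fun h1 x

/-- Conjugation by the normalised action on degree preserving matrices. -/
lemma conj_diag {s : ℂ} {g : Γ} (hs : s ≠ 0) {c' : Matrix ι ι ℂ} (hc : Rs j P s g * c' = 1)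
    {y : Matrix ι ι ℂ} (hy : ∀ i k, deg i ≠ deg k → y i k = 0) :
    Rs j P s g * y * c' = (P.R g).map j * y * (P.R g⁻¹).map j := by
  obtain ⟨S, hS⟩ : ∃ S : Matrix ι ι ℂ, S = Matrix.diagonal (fun i => s ^ deg i) := ⟨_, rfl⟩
  obtain ⟨S', hS'⟩ : ∃ S' : Matrix ι ι ℂ, S' = Matrix.diagonal (fun i => (s ^ deg i)⁻¹) := ⟨_, rfl⟩
  have hSS : S * S' = 1 := by
    rw [hS, hS', Matrix.diagonal_mul_diagonal, ← Matrix.diagonal_one]
    congr 1
    funext i
    exact mul_inv_cancel₀ (pow_ne_zero _ hs)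
  have hc' : c' = (P.R g⁻¹).map j * S' := by
    have h1 : Rs j P s g * ((P.R g⁻¹).map j * S') = 1 := by
      rw [Rs, ← hS]
      calc S * (P.R g).map j * ((P.R g⁻¹).map j * S') =
          S * ((P.R g).map j * (P.R g⁻¹).map j) * S' := by simp only [Matrix.mul_assoc]
        _ = 1 := by rw [R_cast_inv, Matrix.mul_one, hSS]
    have h2 := mul_eq_one_comm.1 hc
    calc c' = c' * (Rs j P s g * ((P.R g⁻¹).map j * S')) := by rw [h1, Matrix.mul_one]
      _ = _ := by rw [← Matrix.mul_assoc, h2, Matrix.one_mul]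
  have hcomm : ∀ M : Matrix ι ι ℂ, (∀ i k, deg i ≠ deg k → M i k = 0) → S * M = M * S := by
    intro M hM
    ext i k
    rw [hS, Matrix.diagonal_mul, Matrix.mul_diagonal]
    by_cases h : deg i = deg k
    · rw [h, mul_comm]
    · rw [hM i k h, zero_mul, mul_zero]
  have hR : ∀ g : Γ, ∀ i k, deg i ≠ deg k → (P.R g).map j i k = 0 := by
    intro g i k h
    rw [Matrix.map_apply, P.deg' g i k h, map_zero]
  rw [hc', Rs, ← hS]
  calc S * (P.R g).map j * y * ((P.R g⁻¹).map j * S') =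
      (S * (P.R g).map j) * y * (P.R g⁻¹).map j * S' := by simp only [Matrix.mul_assoc]
    _ = (P.R g).map j * (S * y) * (P.R g⁻¹).map j * S' := by
        rw [hcomm _ (hR g)]; simp only [Matrix.mul_assoc]
    _ = (P.R g).map j * y * (S * (P.R g⁻¹).map j) * S' := by
        rw [hcomm _ hy]; simp only [Matrix.mul_assoc]
    _ = (P.R g).map j * y * (P.R g⁻¹).map j * (S * S') := by
        rw [hcomm _ (hR g⁻¹)]; simp only [Matrix.mul_assoc]
    _ = _ := by rw [hSS, Matrix.mul_one]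

lemma gr_gr (x : Matrix ι ι ℂ) : gr deg (gr deg x) = gr deg x := by
  refine gr_eq fun i k h => ?_
  rw [gr, Matrix.of_apply, if_neg h]

lemma gr_supp (x : Matrix ι ι ℂ) {i k : ι} (h : deg i ≠ deg k) : gr deg x i k = 0 := by
  rw [gr, Matrix.of_apply, if_neg h]

/-- **The projector is a combination of Tate arrays.** -/
theorem exists_F [IsTopologicalGroup Γ] (hS : HasPr j P) (hd : Hom2 deg H) {Δ : OpenSubgroup Γ}
    (hQ : InvQ j P H Δ) (hχ : ∀ g, P.χ g ≠ 0) :
    ∃ F : Matrix (Fin (1 + 1) → ι) (Fin (1 + 1) → ι) ℂ,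
      (∀ v, ∃ y ∈ LT (TT j P), F *ᵥ v = ar2 (y * cQ H.Qir)) ∧
      (∀ y ∈ LT (TT j P), F *ᵥ ar2 (y * cQ H.Qir) = ar2 (y * cQ H.Qir)) ∧
      rei finSumFinEquiv (arr (F * kp (Fin (1 + 1)) (cQ H.Qir))) ∈ TT j P 3 := by
  obtain ⟨f, hf1, hf2, hf3⟩ := hS Δ
  obtain ⟨F, hF⟩ : ∃ F, F = LinearMap.toMatrix' (PhF deg H (exC j f)) := ⟨_, rfl⟩
  have hFv : ∀ v, F *ᵥ v = PhF deg H (exC j f) v := by
    intro v
    rw [hF, ← Matrix.toLin'_apply, Matrix.toLin'_toMatrix']
  have hFa : ∀ M : Matrix ι ι ℂ, F *ᵥ ar2 M =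
      ar2 (exC j f (gr deg (M * cQ H.Qr)) * cQ H.Qir) := fun M => by
    rw [hFv, PhF_ar2]
  refine ⟨F, fun v => ?_, fun y hy => ?_, ?_⟩
  · obtain ⟨M, rfl⟩ := surj_ar2 v
    exact ⟨_, exC_mem hf1 _, hFa M⟩
  · rw [hFa, Matrix.mul_assoc, Qi_Q, Matrix.mul_one,
      gr_eq (x := y) (fun i k h => LT_deg hd hQ hy h), exC_id hf2 hy]
  · -- the support
    have hQd : ∀ i k, deg i ≠ deg k → cQ H.Qir i k = 0 := fun i k h => by
      rw [cQ, Matrix.map_apply, hd.Qi i k h, Rat.cast_zero]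
    have hQd' : ∀ i k, deg i ≠ deg k → cQ H.Qr i k = 0 := fun i k h => by
      rw [cQ, Matrix.map_apply, hd.Q i k h, Rat.cast_zero]
    have hs1 : ∀ v u : Fin (1 + 1) → ι, deg (v 0) ≠ deg (v 1) → F v u = 0 := by
      intro v u hv
      have h1 : F v u = (F *ᵥ Pi.single u 1) v := by
        rw [Matrix.mulVec_single_one, Matrix.col_apply]
      obtain ⟨M, hM⟩ := surj_ar2 (Pi.single u (1 : ℂ))
      rw [h1, hM, hFa, ar2, Matrix.mul_apply]
      refine Finset.sum_eq_zero fun t _ => ?_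
      by_cases h2 : deg (v 0) = deg t
      · rw [hQd t (v 1) (h2 ▸ hv), mul_zero]
      · rw [LT_deg hd hQ (exC_mem hf1 _) h2, zero_mul]
    have hs2 : ∀ v u : Fin (1 + 1) → ι, deg (u 0) ≠ deg (u 1) → F v u = 0 := by
      intro v u hu
      have h1 : F v u = (F *ᵥ Pi.single u 1) v := by
        rw [Matrix.mulVec_single_one, Matrix.col_apply]
      have h2 : (Pi.single u (1 : ℂ) : (Fin (1 + 1) → ι) → ℂ) =
          ar2 (Matrix.single (u 0) (u 1) (1 : ℂ)) := by
        funext w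
        rw [ar2, Matrix.single_apply]
        by_cases hw : w = u
        · subst hw
          rw [Pi.single_eq_same, if_pos ⟨rfl, rfl⟩]
        · rw [Pi.single_eq_of_ne hw, if_neg]
          rintro ⟨h3, h4⟩
          apply hw
          funext k
          fin_cases k
          · exact h3.symm
          · exact h4.symm
      have h3 : gr deg (Matrix.single (u 0) (u 1) (1 : ℂ) * cQ H.Qr) = 0 := by
        ext i k
        rw [gr, Matrix.of_apply, Matrix.zero_apply]
        by_cases h4 : deg i = deg k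
        · rw [if_pos h4, Matrix.mul_apply]
          refine Finset.sum_eq_zero fun t _ => ?_
          rw [Matrix.single_apply]
          by_cases h5 : u 0 = i ∧ u 1 = t
          · obtain ⟨rfl, rfl⟩ := h5
            rw [hQd' _ _ (fun h6 => hu (h4.trans h6.symm)), mul_zero]
          · rw [if_neg h5, zero_mul]
        · rw [if_neg h4]
      rw [h1, h2, hFa, h3, map_zero, Matrix.zero_mul]
      rfl
    refine mem_TT (Δ := Δ) (fun w hw => ?_) fun g hg => ?_
    · rw [rei, arr, Matrix.mul_apply] at hw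
      obtain ⟨u, -, hu⟩ := Finset.exists_ne_zero_of_sum_ne_zero hw
      have h1 := left_ne_zero_of_mul hu
      have h2 := right_ne_zero_of_mul hu
      have e1 : deg (w 0) = deg (w 1) := by
        by_contra h3
        exact h1 (hs1 _ _ h3)
      have e2 : deg (u 0) = deg (u 1) := by
        by_contra h3
        exact h1 (hs2 _ _ h3)
      rw [kp_apply, Fin.prod_univ_two] at h2
      have e3 : deg (u 0) = deg (w 2) := by
        by_contra h3
        exact left_ne_zero_of_mul h2 (hQd _ _ h3)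
      have e4 : deg (u 1) = deg (w 3) := by
        by_contra h3
        exact right_ne_zero_of_mul h2 (hQd _ _ h3)
      rw [Fin.sum_univ_four]
      refine ⟨deg (w 0) + deg (w 2), ?_⟩
      omega
    · obtain ⟨s, hs⟩ := exists_sq (j (P.χ g))
      refine ⟨s, hs, ?_⟩
      have hs0 : s ≠ 0 := by
        rintro rfl
        apply hχ g
        have h1 : j (P.χ g) = 0 := by rw [← hs]; ring
        exact (map_eq_zero j).1 h1
      -- the operator commutes with the action
      have hcomm : kp (Fin (1 + 1)) (Rs j P s g) * F = F * kp (Fin (1 + 1)) (Rs j P s g) := by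
        apply Matrix.mulVec_injective
        funext v
        obtain ⟨M, rfl⟩ := surj_ar2 v
        change (kp (Fin (1 + 1)) (Rs j P s g) * F) *ᵥ ar2 M =
          (F * kp (Fin (1 + 1)) (Rs j P s g)) *ᵥ ar2 M
        rw [← Matrix.mulVec_mulVec, ← Matrix.mulVec_mulVec, kp_ar2, hFa, hFa, kp_ar2]
        congr 1
        have hRR := Rs_Ri hQ hg hs
        -- the right hand side
        have h1 : Rs j P s g * M * (Rs j P s g)ᵀ * cQ H.Qr =
            Rs j P s g * (M * cQ H.Qr) * Ri j P H s g := by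
          rw [Matrix.mul_assoc (Rs j P s g * M), RsT_Q hQ hg hs]
          simp only [Matrix.mul_assoc]
        have hRid : ∀ i k, deg i ≠ deg k → Ri j P H s g i k = 0 := by
          have h2 : ∀ i k, deg i ≠ deg k → (cQ H.Qir * (Rs j P s g)ᵀ) i k = 0 := by
            intro i k h
            rw [Matrix.mul_apply]
            refine Finset.sum_eq_zero fun t _ => ?_
            by_cases h3 : deg i = deg t
            · rw [Matrix.transpose_apply, Rs_deg (fun h4 => h (h3.trans h4.symm)), mul_zero]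
            · rw [hQd i t h3, zero_mul]
          intro i k h
          rw [Ri, Matrix.mul_apply]
          refine Finset.sum_eq_zero fun t _ => ?_
          by_cases h3 : deg i = deg t
          · rw [hQd' t k (fun h4 => h (h3.trans h4)), mul_zero]
          · rw [h2 i t h3, zero_mul]
        rw [h1, gr_mul_right hRid, gr_mul_left (c := Rs j P s g) (fun i k h => Rs_deg h),
          conj_diag hs0 hRR (y := gr deg (M * cQ H.Qr)) (fun i k h => gr_supp _ h),
          exC_conj (j := j) (hf3 g hg),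
          ← conj_diag hs0 hRR (y := exC j f (gr deg (M * cQ H.Qr)))
            (fun i k h => LT_deg hd hQ (exC_mem hf1 _) h)]
        -- the left hand side
        have h3 : cQ H.Qir * (Rs j P s g)ᵀ = Ri j P H s g * cQ H.Qir := by
          rw [Ri, Matrix.mul_assoc _ (cQ H.Qr), Q_Qi, Matrix.mul_one]
        rw [Matrix.mul_assoc _ _ (cQ H.Qir), ← h3]
        simp only [Matrix.mul_assoc]
      rw [kp_rei, kp_arr]
      congr 2
      have h4 : kp (Fin (1 + 1)) (Rs j P s g) * kp (Fin (1 + 1)) (cQ H.Qir) *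
          (kp (Fin (1 + 1)) (Rs j P s g))ᵀ = kp (Fin (1 + 1)) (cQ H.Qir) := by
        rw [← kp_transpose, ← kp_mul, ← kp_mul, Rs_Qi hQ hg hs]
      rw [← Matrix.mul_assoc, hcomm, Matrix.mul_assoc F, Matrix.mul_assoc F, h4]

end Pool.Agent.L0h10.RQ
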