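import Pool.Agent.L0h10.RQ.Rep
import Pool.Agent.L0h10.RQ.Eng
import Pool.Agent.L0h10.RQ.Prj2

/-!
# The trace form on the Lie algebra of the Tate arrays is nondegenerate
-/

set_option linter.unusedSectionVars false

namespace Pool.Agent.L0h10.RQ

open Matrix
open Pool.Agent.N996.BP Pool.Agent.N996.FP
open Pool.Agent.L0h10.TS (ar2 ar2_inj ar2_surj dk_ar2 kp_ar2 dk_rei dk_empty dk_mulVec_apply GRep
  desc_sol dv dv_eq dv_map cL)

variable {ι : Type} [Fintype ι] [DecidableEq ι] {deg : ι → ℕ} {L : Type} [Field L] [CharZero L]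
  {j : L →+* ℂ} {Γ : Type*} [Group Γ] [TopologicalSpace Γ] {P : GRep deg L Γ}
  {H : HData ι}

variable (P) in
/-- The open subgroups act semisimply on the vectors. -/
def SSv : Prop := ∀ (Δ : OpenSubgroup Γ) (U : Submodule L (ι → L)),
  (∀ g ∈ Δ, ∀ u ∈ U, P.R g *ᵥ u ∈ U) →
    ∃ U' : Submodule L (ι → L), (∀ g ∈ Δ, ∀ u ∈ U', P.R g *ᵥ u ∈ U') ∧ IsCompl U U'

/-- Degree preserving matrices which commute with an open subgroup give Tate arrays. -/
lemma comm_TT (hd : Hom2 deg H) {Δ Δ' : OpenSubgroup Γ} (hQ : InvQ j P H Δ) {a : Matrix ι ι ℂ}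
    (ha : ∀ i k, deg i ≠ deg k → a i k = 0)
    (hc : ∀ g ∈ Δ', a * (P.R g).map j = (P.R g).map j * a) : ar2 (a * cQ H.Qir) ∈ TT j P 1 := by
  refine mem_TT (Δ := Δ ⊓ Δ') (fun w hw => ?_) fun g hg => ?_
  · have h1 : deg (w 0) = deg (w 1) := by
      by_contra h2
      apply hw
      rw [ar2, Matrix.mul_apply]
      refine Finset.sum_eq_zero fun t _ => ?_
      by_cases h3 : deg (w 0) = deg t
      · rw [cQ, Matrix.map_apply, hd.Qi t (w 1) (fun h4 => h2 (h3.trans h4)), Rat.cast_zero,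
          mul_zero]
      · rw [ha _ _ h3, zero_mul]
    rw [Fin.sum_univ_two, h1]
    exact ⟨_, rfl⟩
  · obtain ⟨s, hs⟩ := exists_sq (j (P.χ g))
    refine ⟨s, hs, ?_⟩
    have hcomm : Rs j P s g * a = a * Rs j P s g := by
      have h1 : Matrix.diagonal (fun i => s ^ deg i) * a = a * Matrix.diagonal (fun i => s ^ deg i) := by
        ext i k
        rw [Matrix.diagonal_mul, Matrix.mul_diagonal]
        by_cases h : deg i = deg k
        · rw [h, mul_comm]
        · rw [ha i k h, zero_mul, mul_zero]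
      rw [Rs, Matrix.mul_assoc, ← hc g (OpenSubgroup.mem_inf.1 hg).2, ← Matrix.mul_assoc, h1,
        Matrix.mul_assoc]
    have h1 := kp_ar2 (Rs j P s g) (a * cQ H.Qir)
    rw [← Matrix.mul_assoc (Rs j P s g), hcomm, Matrix.mul_assoc a, Matrix.mul_assoc a,
      Rs_Qi hQ (OpenSubgroup.mem_inf.1 hg).1 hs] at h1
    exact h1

/-- The Lie algebra commutes with such matrices. -/
lemma LT_comm (hd : Hom2 deg H) {Δ : OpenSubgroup Γ} (hQ : InvQ j P H Δ) {a : Matrix ι ι ℂ}
    (ha : ar2 (a * cQ H.Qir) ∈ TT j P 1) {y : Matrix ι ι ℂ} (hy : y ∈ LT (TT j P)) :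
    y * a = a * y := by
  have h1 := hy 1 _ ha
  rw [dk_ar2] at h1
  have h2 : y * (a * cQ H.Qir) + a * cQ H.Qir * yᵀ = 0 := ar2_inj h1
  have h3 : cQ H.Qir * yᵀ = -(y * cQ H.Qir) := by
    rw [eq_neg_iff_add_eq_zero, add_comm]; exact LT_skew hd hQ hy
  rw [Matrix.mul_assoc a, h3, Matrix.mul_neg, add_neg_eq_zero] at h2
  have h5 := congrArg (fun z => z * cQ H.Qr) h2
  beta_reduce at h5
  simp only [Matrix.mul_assoc, Qi_Q, Matrix.mul_one] at h5
  exact h5

variable (j P) in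
/-- The radical of the trace form. -/
def rad : Submodule L (Matrix ι ι L) where
  carrier := {x | x ∈ gL j P ∧ ∀ y ∈ gL j P, (x * y).trace = 0}
  add_mem' {a b} ha hb := ⟨Submodule.add_mem _ ha.1 hb.1, fun y hy => by
    rw [Matrix.add_mul, Matrix.trace_add, ha.2 y hy, hb.2 y hy, add_zero]⟩
  zero_mem' := ⟨Submodule.zero_mem _, fun y _ => by rw [Matrix.zero_mul, Matrix.trace_zero]⟩
  smul_mem' c a ha := ⟨Submodule.smul_mem _ _ ha.1, fun y hy => by
    rw [Matrix.smul_mul, Matrix.trace_smul, ha.2 y hy, smul_zero]⟩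

lemma map_sub_j (x y : Matrix ι ι L) : (x - y).map j = x.map j - y.map j := by
  ext i k; simp

lemma map_inj_j {x y : Matrix ι ι L} (h : x.map j = y.map j) : x = y := by
  ext i k
  exact j.injective (congrFun (congrFun h i) k)

lemma gL_br {x y : Matrix ι ι L} (hx : x ∈ gL j P) (hy : y ∈ gL j P) :
    x * y - y * x ∈ gL j P := by
  change (x * y - y * x).map j ∈ LT (TT j P)
  rw [map_sub_j, map_mul_j, map_mul_j]
  exact LT_br hx hy

lemma gL_conj [IsTopologicalGroup Γ] {x : Matrix ι ι L} (hx : x ∈ gL j P) (g : Γ) :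
    P.R g * x * P.R g⁻¹ ∈ gL j P := by
  change (P.R g * x * P.R g⁻¹).map j ∈ LT (TT j P)
  rw [map_mul_j, map_mul_j]
  exact LT_conj hx g

lemma R_inv (g : Γ) : P.R g * P.R g⁻¹ = 1 := by rw [← P.mul, mul_inv_cancel, P.one]

lemma R_inv' (g : Γ) : P.R g⁻¹ * P.R g = 1 := mul_eq_one_comm.1 (R_inv g)

lemma rad_br {x y : Matrix ι ι L} (hx : x ∈ rad j P) (hy : y ∈ rad j P) :
    x * y - y * x ∈ rad j P := by
  refine ⟨gL_br hx.1 hy.1, fun z hz => ?_⟩
  have h1 : ((x * y - y * x) * z).trace = (x * (y * z - z * y)).trace := by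
    rw [Matrix.sub_mul, Matrix.mul_sub, Matrix.trace_sub, Matrix.trace_sub, Matrix.mul_assoc,
      Matrix.mul_assoc, Matrix.trace_mul_comm y, Matrix.mul_assoc]
  rw [h1]
  exact hx.2 _ (gL_br hy.1 hz)

lemma rad_conj [IsTopologicalGroup Γ] {x : Matrix ι ι L} (hx : x ∈ rad j P) (g : Γ) :
    P.R g * x * P.R g⁻¹ ∈ rad j P := by
  refine ⟨gL_conj hx.1 g, fun z hz => ?_⟩
  have h1 : (P.R g * x * P.R g⁻¹ * z).trace = (x * (P.R g⁻¹ * z * P.R g)).trace := by
    rw [Matrix.mul_assoc (P.R g * x), Matrix.mul_assoc (P.R g), Matrix.trace_mul_comm (P.R g)]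
    simp only [Matrix.mul_assoc]
  rw [h1]
  have h2 := gL_conj hz g⁻¹
  rw [inv_inv] at h2
  exact hx.2 _ h2

lemma rad_LT {x : Matrix ι ι L} (hx : x ∈ rad j P) {y : Matrix ι ι ℂ} (hy : y ∈ LT (TT j P)) :
    (x.map j * y).trace = 0 := by
  have h1 := LT_span hy
  clear hy
  induction h1 using Submodule.span_induction with
  | mem y hy =>
    obtain ⟨u, hu, rfl⟩ := hy
    have h2 : (x.map j * u.map j).trace = j ((x * u).trace) := by
      rw [← map_mul_j, Matrix.trace, Matrix.trace, map_sum]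
      rfl
    rw [h2, hx.2 u hu, map_zero]
  | zero => rw [Matrix.mul_zero, Matrix.trace_zero]
  | add a b _ _ ha hb => rw [Matrix.mul_add, Matrix.trace_add, ha, hb, add_zero]
  | smul r a _ ha => rw [Matrix.mul_smul, Matrix.trace_smul, ha, smul_zero]

lemma rad_nil {x : Matrix ι ι L} (hx : x ∈ rad j P) : IsNilpotent x := by
  obtain ⟨S, S', ν, μ, h⟩ := exists_jor (x.map j)
  have h1 : rep S S' μ cjA ∈ LT (TT j P) := fun n c hc => h.kill cjA (hx.1 n c hc)
  obtain ⟨m, hm⟩ := h.nilp (rad_LT hx h1)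
  refine ⟨m, map_inj_j (j := j) ?_⟩
  have h2 : ∀ m : ℕ, (x ^ m).map j = (x.map j) ^ m := by
    intro m
    induction m with
    | zero =>
      rw [pow_zero, pow_zero]
      exact Matrix.map_one _ (map_zero j) (map_one j)
    | succ m ih => rw [pow_succ, pow_succ, map_mul_j, ih]
  rw [h2, hm]
  ext i k
  simp

/-- Matrices in the Lie algebra preserve the degrees. -/
lemma gL_deg (hd : Hom2 deg H) {Δ : OpenSubgroup Γ} (hQ : InvQ j P H Δ) {x : Matrix ι ι L}
    (hx : x ∈ gL j P) {i k : ι} (h : deg i ≠ deg k) : x i k = 0 := by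
  have h1 : x.map j i k = 0 := LT_deg hd hQ hx h
  exact (map_eq_zero j).1 h1

/-- The component of degree `d` of a vector. -/
def vd (deg : ι → ℕ) (d : ℕ) (v : ι → L) : ι → L := fun i => if deg i = d then v i else 0

lemma mulVec_vd {x : Matrix ι ι L} (hx : ∀ i k, deg i ≠ deg k → x i k = 0) (v : ι → L) (d : ℕ) :
    x *ᵥ vd deg d v = vd deg d (x *ᵥ v) := by
  funext i
  rw [Matrix.mulVec, dotProduct, vd, Matrix.mulVec, dotProduct]
  by_cases h : deg i = d
  · rw [if_pos h]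
    refine Finset.sum_congr rfl fun k _ => ?_
    by_cases h1 : deg i = deg k
    · rw [vd, if_pos (h1 ▸ h)]
    · rw [hx i k h1, zero_mul, zero_mul]
  · rw [if_neg h]
    refine Finset.sum_eq_zero fun k _ => ?_
    by_cases h1 : deg i = deg k
    · rw [vd, if_neg (h1 ▸ h), mul_zero]
    · rw [hx i k h1, zero_mul]

lemma gr_mulVec (x : Matrix ι ι L) (v : ι → L) (i : ι) :
    (gr deg x *ᵥ v) i = (x *ᵥ vd deg (deg i) v) i := by
  rw [Matrix.mulVec, Matrix.mulVec, dotProduct, dotProduct]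
  refine Finset.sum_congr rfl fun k _ => ?_
  rw [gr, Matrix.of_apply, vd]
  by_cases h : deg i = deg k
  · rw [if_pos h, if_pos h.symm]
  · rw [if_neg h, if_neg (Ne.symm h), zero_mul, mul_zero]

/-- **The trace form is nondegenerate.** -/
theorem rad_zero [IsTopologicalGroup Γ] (hS : SSv P) (hd : Hom2 deg H) {Δ : OpenSubgroup Γ}
    (hQ : InvQ j P H Δ) {x : Matrix ι ι L} (hx : x ∈ rad j P) : x = 0 := by
  classical
  -- the invariants
  let V0 : Submodule L (ι → L) :=
    { carrier := {v | ∀ x ∈ rad j P, x *ᵥ v = 0}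
      add_mem' := fun {a b} ha hb x hx => by rw [Matrix.mulVec_add, ha x hx, hb x hx, add_zero]
      zero_mem' := fun x _ => Matrix.mulVec_zero _
      smul_mem' := fun c a ha x hx => by rw [Matrix.mulVec_smul, ha x hx, smul_zero] }
  have hV0 : ∀ v, v ∈ V0 ↔ ∀ x ∈ rad j P, x *ᵥ v = 0 := fun v => Iff.rfl
  have hst : ∀ g : Γ, ∀ v ∈ V0, P.R g *ᵥ v ∈ V0 := by
    intro g v hv
    rw [hV0] at hv ⊢
    intro x hx
    have h1 := hv _ (rad_conj hx g⁻¹)
    rw [inv_inv] at h1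
    have h2 := congrArg (fun u => P.R g *ᵥ u) h1
    beta_reduce at h2
    rw [Matrix.mulVec_zero, Matrix.mulVec_mulVec, ← Matrix.mul_assoc, ← Matrix.mul_assoc, R_inv,
      Matrix.one_mul, ← Matrix.mulVec_mulVec] at h2
    exact h2
  obtain ⟨U', hU', hc⟩ := hS ⊤ V0 fun g _ v hv => hst g v hv
  let f : (ι → L) →ₗ[L] (ι → L) := V0.subtype ∘ₗ V0.projectionOnto U' hc
  have hf0 : ∀ v, f v ∈ V0 := fun v => (V0.projectionOnto U' hc v).2
  have hf1 : ∀ v ∈ V0, f v = v := by
    intro v hv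
    change ((V0.projectionOnto U' hc v : V0) : ι → L) = v
    have := Submodule.projectionOnto_apply_left hc ⟨v, hv⟩
    rw [this]
  have hf2 : ∀ v ∈ U', f v = 0 := by
    intro v hv
    change ((V0.projectionOnto U' hc v : V0) : ι → L) = 0
    have := Submodule.projectionOnto_apply_right hc ⟨v, hv⟩
    rw [this]
    rfl
  have hf3 : ∀ g : Γ, ∀ v, f (P.R g *ᵥ v) = P.R g *ᵥ f v := by
    intro g v
    have hv : v ∈ V0 ⊔ U' := by rw [hc.sup_eq_top]; exact Submodule.mem_top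
    obtain ⟨a, ha, b, hb, rfl⟩ := Submodule.mem_sup.1 hv
    rw [Matrix.mulVec_add, map_add, hf1 _ (hst g a ha), hf2 _ (hU' g (by trivial) b hb),
      map_add, hf1 a ha, hf2 b hb, add_zero, add_zero]
  obtain ⟨p, hp⟩ : ∃ p, p = LinearMap.toMatrix' f := ⟨_, rfl⟩
  have hpv : ∀ v, p *ᵥ v = f v := by
    intro v
    rw [hp, ← Matrix.toLin'_apply, Matrix.toLin'_toMatrix']
  have hpR : ∀ g : Γ, p * P.R g = P.R g * p := by
    intro g
    apply Matrix.mulVec_injective
    funext v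
    change (p * P.R g) *ᵥ v = (P.R g * p) *ᵥ v
    rw [← Matrix.mulVec_mulVec, ← Matrix.mulVec_mulVec, hpv, hpv, hf3]
  -- the part which preserves the degrees
  obtain ⟨q, hq⟩ : ∃ q, q = gr deg p := ⟨_, rfl⟩
  have hqd : ∀ i k, deg i ≠ deg k → q i k = 0 := by
    intro i k h
    rw [hq, gr, Matrix.of_apply, if_neg h]
  have hqR : ∀ g : Γ, q * P.R g = P.R g * q := by
    intro g
    rw [hq, ← gr_mul_right (fun i k h => P.deg' g i k h), hpR,
      gr_mul_left (fun i k h => P.deg' g i k h)]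
  have hvd : ∀ v ∈ V0, ∀ d, vd deg d v ∈ V0 := by
    intro v hv d
    rw [hV0] at hv ⊢
    intro x hx
    rw [mulVec_vd (deg := deg) (x := x) (fun i k h => gL_deg hd hQ hx.1 h), hv x hx]
    funext i
    exact ite_self _
  have hq1 : ∀ v ∈ V0, q *ᵥ v = v := by
    intro v hv
    funext i
    rw [hq, gr_mulVec, hpv, hf1 _ (hvd v hv _), vd, if_pos rfl]
  have hq2 : ∀ v, q *ᵥ v ∈ V0 := by
    intro v
    rw [hV0]
    intro x hx
    funext i
    have h1 := (hV0 _).1 (hf0 (vd deg (deg i) v)) x hx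
    have h2 := congrFun h1 i
    rw [Matrix.mulVec, dotProduct, Pi.zero_apply] at h2
    rw [Matrix.mulVec, dotProduct, Pi.zero_apply, ← h2]
    refine Finset.sum_congr rfl fun k _ => ?_
    by_cases h : deg i = deg k
    · rw [hq, gr_mulVec, hpv, h]
    · rw [gL_deg hd hQ hx.1 h, zero_mul, zero_mul]
  -- it commutes with the Lie algebra
  have hTT : ar2 (q.map j * cQ H.Qir) ∈ TT j P 1 := by
    refine comm_TT hd (Δ' := ⊤) hQ (fun i k h => ?_) fun g _ => ?_
    · rw [Matrix.map_apply, hqd i k h, map_zero]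
    · rw [← map_mul_j, hqR, map_mul_j]
  have hcomm : ∀ x ∈ rad j P, x * q = q * x := by
    intro x hx
    apply map_inj_j (j := j)
    rw [map_mul_j, map_mul_j]
    exact LT_comm hd hQ hTT hx.1
  -- the kernel
  let W : Submodule L (ι → L) := LinearMap.ker (Matrix.toLin' q)
  have hW : ∀ v, v ∈ W ↔ q *ᵥ v = 0 := fun v => by
    rw [LinearMap.mem_ker, Matrix.toLin'_apply]
  have hW0 : W = ⊥ := by
    by_contra hne
    obtain ⟨v, hv, hv0, h1⟩ := engel (r := rad j P) (fun x hx y hy => rad_br hx hy)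
      (fun x hx => rad_nil hx) (W := W) (fun x hx v hv => by
        rw [hW] at hv ⊢
        rw [Matrix.mulVec_mulVec, ← hcomm x hx, ← Matrix.mulVec_mulVec, hv,
          Matrix.mulVec_zero]) hne
    have h2 : v ∈ V0 := (hV0 v).2 h1
    rw [hW, hq1 v h2] at hv
    exact hv0 hv
  have h1 : ∀ v, v ∈ V0 := by
    intro v
    have h2 : v - q *ᵥ v ∈ W := by
      rw [hW, Matrix.mulVec_sub, hq1 _ (hq2 v), sub_self]
    rw [hW0, Submodule.mem_bot, sub_eq_zero] at h2
    rw [h2]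
    exact hq2 v
  apply Matrix.mulVec_injective
  funext v
  change x *ᵥ v = 0 *ᵥ v
  rw [Matrix.zero_mulVec]
  exact (hV0 v).1 (h1 v) x hx

/-- The trace form. -/
def trF : LinearMap.BilinForm L (Matrix ι ι L) :=
  LinearMap.mk₂ L (fun x y => (x * y).trace)
    (fun x x' y => by rw [Matrix.add_mul, Matrix.trace_add])
    (fun c x y => by rw [Matrix.smul_mul, Matrix.trace_smul])
    (fun x y y' => by rw [Matrix.mul_add, Matrix.trace_add])
    (fun c x y => by rw [Matrix.mul_smul, Matrix.trace_smul])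

lemma trF_apply (x y : Matrix ι ι L) : trF x y = (x * y).trace := rfl

/-- **Equivariant projectors.** -/
theorem hasPr [IsTopologicalGroup Γ] (hS : SSv P) (hd : Hom2 deg H) {Δ : OpenSubgroup Γ}
    (hQ : InvQ j P H Δ) : HasPr j P := by
  have hrefl : (trF : LinearMap.BilinForm L (Matrix ι ι L)).IsRefl := by
    intro x y h
    rw [trF_apply] at h ⊢
    rw [Matrix.trace_mul_comm, h]
  have h1 : IsCompl (gL j P) ((trF : LinearMap.BilinForm L (Matrix ι ι L)).orthogonal (gL j P)) := by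
    rw [LinearMap.BilinForm.isCompl_orthogonal_iff_disjoint hrefl, Submodule.disjoint_def]
    intro x hx hx'
    refine rad_zero hS hd hQ (j := j) ⟨hx, fun y hy => ?_⟩
    have h2 := hx' y hy
    rw [Matrix.trace_mul_comm]
    exact h2
  refine hasPr_of h1 fun g x hx y hy => ?_
  have h2 := gL_conj hy g⁻¹
  rw [inv_inv] at h2
  have h3 := hx _ h2
  change ((P.R g⁻¹ * y * P.R g) * x).trace = 0 at h3
  change (y * (P.R g * x * P.R g⁻¹)).trace = 0
  rw [← h3]
  rw [← Matrix.mul_assoc, Matrix.trace_mul_comm]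
  simp only [Matrix.mul_assoc]

end Pool.Agent.L0h10.RQ
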