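import Pool.Agent.L0h10.RQ.Gal
import Mathlib.LinearAlgebra.Eigenspace.Semisimple

/-!
# Replicas of matrices
-/

set_option linter.unusedSectionVars false

namespace Pool.Agent.L0h10.RQ

open Matrix Module
open Pool.Agent.N996.BP Pool.Agent.N996.FP
open Pool.Agent.L0h10.TS (dk_mulVec_apply)

variable {ι : Type} [Fintype ι] [DecidableEq ι]

/-- The Jordan decomposition in coordinates. -/
structure Jor (x S S' ν : Matrix ι ι ℂ) (μ : ι → ℂ) : Prop where
  inv : S' * S = 1
  nil : IsNilpotent ν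
  comm : ν * Matrix.diagonal μ = Matrix.diagonal μ * ν
  eq : S' * x * S = Matrix.diagonal μ + ν

lemma exists_jor (x : Matrix ι ι ℂ) : ∃ S S' ν μ, Jor x S S' ν μ := by
  classical
  obtain ⟨n, hn, s, hs, hnil, hss, hx⟩ :=
    Module.End.exists_isNilpotent_isSemisimple (f := (Matrix.toLin' x : Module.End ℂ (ι → ℂ)))
  have hns : Commute n s :=
    (Algebra.commute_of_mem_adjoin_singleton_of_commute hs
      (Algebra.commute_of_mem_adjoin_self hn).symm)
  have dec := DirectSum.isInternal_submodule_of_iSupIndep_of_iSup_eq_top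
    s.eigenspaces_iSupIndep hss.iSup_eigenspace_eq_top
  let I := (ν : ℂ) × Fin (finrank ℂ (s.eigenspace ν))
  let v0 : Basis I ℂ (ι → ℂ) := dec.collectedBasis fun μ ↦ finBasis ℂ (s.eigenspace μ)
  have : Fintype I := FiniteDimensional.fintypeBasisIndex v0
  have hcard : Fintype.card I = Fintype.card ι := by
    rw [← finrank_eq_card_basis v0, Module.finrank_fintype_fun_eq_card]
  let eqv : I ≃ ι := Fintype.equivOfCardEq hcard
  let v : Basis ι ℂ (ι → ℂ) := v0.reindex eqv
  let μ : ι → ℂ := fun i => (eqv.symm i).1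
  have hsv : ∀ i, s (v i) = μ i • v i := by
    intro i
    have h1 : v i = v0 (eqv.symm i) := Basis.reindex_apply _ _ _
    rw [h1]
    exact Module.End.mem_eigenspace_iff.mp (dec.collectedBasis_mem _ (eqv.symm i))
  have hS : LinearMap.toMatrix v v s = Matrix.diagonal μ := by
    ext i k
    rw [LinearMap.toMatrix_apply, hsv, map_smul, Basis.repr_self, Finsupp.smul_apply,
      Matrix.diagonal_apply, Finsupp.single_apply, smul_eq_mul, mul_ite, mul_one, mul_zero]
    by_cases h : i = k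
    · subst h; simp
    · rw [if_neg h, if_neg (Ne.symm h)]
  have hmul : ∀ a b : (ι → ℂ) →ₗ[ℂ] (ι → ℂ), LinearMap.toMatrix v v (a * b) =
      LinearMap.toMatrix v v a * LinearMap.toMatrix v v b := fun a b => LinearMap.toMatrix_mul _ a b
  refine ⟨(Pi.basisFun ℂ ι).toMatrix v, v.toMatrix (Pi.basisFun ℂ ι),
    LinearMap.toMatrix v v n, μ, ?_, ?_, ?_, ?_⟩
  · exact Basis.toMatrix_mul_toMatrix_flip _ _
  · obtain ⟨m, hm⟩ := hnil
    refine ⟨m, ?_⟩
    have h1 : ∀ m : ℕ, LinearMap.toMatrix v v (n ^ m) = LinearMap.toMatrix v v n ^ m := by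
      intro m
      induction m with
      | zero => rw [pow_zero, pow_zero]; exact LinearMap.toMatrix_one _
      | succ m ih => rw [pow_succ, pow_succ, hmul, ih]
    rw [← h1, hm, map_zero]
  · rw [← hS, ← hmul, ← hmul, hns.eq]
  · have h1 := basis_toMatrix_mul_linearMap_toMatrix_mul_basis_toMatrix
      (b := v) (b' := Pi.basisFun ℂ ι) (c := v) (c' := Pi.basisFun ℂ ι) (f := Matrix.toLin' x)
    have h2 : LinearMap.toMatrix (Pi.basisFun ℂ ι) (Pi.basisFun ℂ ι) (Matrix.toLin' x) = x := by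
      rw [LinearMap.toMatrix_eq_toMatrix', LinearMap.toMatrix'_toLin']
    rw [h2] at h1
    rw [h1, hx, map_add, hS, add_comm]

lemma dk_diag (κ : Type) [Fintype κ] [DecidableEq κ] (d : ι → ℂ) (a : (κ → ι) → ℂ) (w : κ → ι) :
    (dk κ (Matrix.diagonal d) *ᵥ a) w = (∑ k, d (w k)) * a w := by
  rw [dk_mulVec_apply, Finset.sum_mul]
  refine Finset.sum_congr rfl fun k _ => ?_
  rw [Finset.sum_eq_single (w k)]
  · rw [Matrix.diagonal_apply_eq, Function.update_eq_self]
  · intro t _ ht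
    rw [Matrix.diagonal_apply_ne d (Ne.symm ht), zero_mul]
  · intro h; exact absurd (Finset.mem_univ _) h

lemma slot_pow (κ : Type) [Fintype κ] [DecidableEq κ] (k : κ) (x : Matrix ι ι ℂ) (m : ℕ) :
    slot k x ^ (m + 1) = slot k (x ^ (m + 1)) := by
  induction m with
  | zero => rw [zero_add, pow_one, pow_one]
  | succ m ih => rw [pow_succ, ih, slot_mul_self, ← pow_succ]

lemma slot_zero (κ : Type) [Fintype κ] [DecidableEq κ] (k : κ) :
    slot k (0 : Matrix ι ι ℂ) = 0 := by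
  have h := slot_smul k (0 : ℂ) (0 : Matrix ι ι ℂ)
  rwa [zero_smul, zero_smul] at h

lemma dk_nil (κ : Type) [Fintype κ] [DecidableEq κ] {ν : Matrix ι ι ℂ} (h : IsNilpotent ν) :
    IsNilpotent (dk κ ν) := by
  classical
  obtain ⟨m, hm⟩ := h
  have h1 : ∀ k : κ, IsNilpotent (slot k ν) := fun k => ⟨m + 1, by
    rw [slot_pow, pow_succ, hm, Matrix.zero_mul, slot_zero]⟩
  have key : ∀ s : Finset κ, IsNilpotent (∑ k ∈ s, slot k ν) := by
    intro s
    induction s using Finset.induction_on with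
    | empty => rw [Finset.sum_empty]; exact IsNilpotent.zero
    | insert a s ha ih =>
      rw [Finset.sum_insert ha]
      refine Commute.isNilpotent_add ?_ (h1 a) ih
      refine Commute.sum_right _ _ _ fun k hk => ?_
      exact slot_comm (fun h2 => ha (by rw [h2]; exact hk)) _ _
  exact key Finset.univ

/-- The replica. -/
noncomputable def rep (S S' : Matrix ι ι ℂ) (μ : ι → ℂ) (φ : ℂ →+ ℂ) : Matrix ι ι ℂ :=
  S * Matrix.diagonal (fun i => φ (μ i)) * S'

variable {x S S' ν : Matrix ι ι ℂ} {μ : ι → ℂ}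

lemma Jor.inv' (h : Jor x S S' ν μ) : S * S' = 1 := mul_eq_one_comm.1 h.inv

/-- The coordinates of the arrays killed by `x`. -/
lemma Jor.supp (h : Jor x S S' ν μ) {κ : Type} [Fintype κ] [DecidableEq κ] {c : (κ → ι) → ℂ}
    (hc : dk κ x *ᵥ c = 0) (w : κ → ι) (hw : (kp κ S' *ᵥ c) w ≠ 0) : ∑ k, μ (w k) = 0 := by
  obtain ⟨c', hc'⟩ : ∃ c', c' = kp κ S' *ᵥ c := ⟨_, rfl⟩
  rw [← hc'] at hw
  have h1 : dk κ (S' * x * S) *ᵥ c' = 0 := by
    have h2 := kp_dk (κ := κ) h.inv' x
    rw [hc', Matrix.mulVec_mulVec, ← h2, ← Matrix.mulVec_mulVec, hc, Matrix.mulVec_zero]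
  have h2 : dk κ (Matrix.diagonal μ + ν) = dk κ (Matrix.diagonal μ) + dk κ ν :=
    (dkL κ).map_add _ _
  rw [h.eq, h2, Matrix.add_mulVec] at h1
  obtain ⟨a, ha⟩ : ∃ a, a = dk κ (Matrix.diagonal μ) := ⟨_, rfl⟩
  obtain ⟨b, hb⟩ : ∃ b, b = dk κ ν := ⟨_, rfl⟩
  rw [← ha, ← hb] at h1
  have hab : Commute a b := by
    have h3 := dk_br (κ := κ) ν (Matrix.diagonal μ)
    have h4 : br ν (Matrix.diagonal μ) = 0 := by rw [br, h.comm, sub_self]
    have h5 : dk κ (0 : Matrix ι ι ℂ) = 0 := (dkL κ).map_zero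
    rw [h4, h5, ← ha, ← hb, br] at h3
    exact (sub_eq_zero.1 h3.symm).symm
  obtain ⟨m, hm⟩ : IsNilpotent b := by rw [hb]; exact dk_nil κ h.nil
  have h3 : a *ᵥ c' = -(b *ᵥ c') := eq_neg_of_add_eq_zero_left h1
  have h4 : ∀ m : ℕ, (a ^ m) *ᵥ c' = (-1 : ℂ) ^ m • ((b ^ m) *ᵥ c') := by
    intro m
    induction m with
    | zero => rw [pow_zero, pow_zero, pow_zero, one_smul, Matrix.one_mulVec]
    | succ m ih =>
      have e1 : a ^ m * b = b * a ^ m := (hab.pow_left m).eq
      rw [pow_succ, ← Matrix.mulVec_mulVec, h3, Matrix.mulVec_neg, Matrix.mulVec_mulVec, e1,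
        ← Matrix.mulVec_mulVec, ih, Matrix.mulVec_smul, Matrix.mulVec_mulVec, ← pow_succ']
      rw [pow_succ (-1 : ℂ) m, mul_neg_one, neg_smul]
  have h5 : (a ^ m) *ᵥ c' = 0 := by rw [h4, hm, Matrix.zero_mulVec, smul_zero]
  have h6 : ∀ m : ℕ, ((a ^ m) *ᵥ c') w = (∑ k, μ (w k)) ^ m * c' w := by
    intro m
    induction m with
    | zero => rw [pow_zero, pow_zero, one_mul, Matrix.one_mulVec]
    | succ m ih =>
      rw [pow_succ', ← Matrix.mulVec_mulVec, ha, dk_diag, ← ha, ih, pow_succ']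
      ring
  have h7 := h6 m
  rw [h5, Pi.zero_apply] at h7
  rcases mul_eq_zero.1 h7.symm with h8 | h8
  · exact eq_zero_of_pow_eq_zero h8
  · exact absurd h8 hw

/-- Replicas kill the same arrays. -/
lemma Jor.kill (h : Jor x S S' ν μ) (φ : ℂ →+ ℂ) {κ : Type} [Fintype κ] [DecidableEq κ]
    {c : (κ → ι) → ℂ} (hc : dk κ x *ᵥ c = 0) : dk κ (rep S S' μ φ) *ᵥ c = 0 := by
  obtain ⟨c', hc'⟩ : ∃ c', c' = kp κ S' *ᵥ c := ⟨_, rfl⟩
  have h1 : c = kp κ S *ᵥ c' := by
    rw [hc', Matrix.mulVec_mulVec, ← kp_mul, h.inv', kp_one, Matrix.one_mulVec]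
  have h2 := kp_dk (κ := κ) h.inv (Matrix.diagonal fun i => φ (μ i))
  rw [h1, rep, Matrix.mulVec_mulVec, ← h2, ← Matrix.mulVec_mulVec]
  have h3 : dk κ (Matrix.diagonal fun i => φ (μ i)) *ᵥ c' = 0 := by
    funext w
    rw [dk_diag, Pi.zero_apply]
    by_cases hw : c' w = 0
    · rw [hw, mul_zero]
    · have h4 := h.supp hc w (by rwa [← hc'])
      rw [← map_sum, h4, map_zero, zero_mul]
  rw [h3, Matrix.mulVec_zero]

/-- Matrices which commute with the semisimple part commute with replicas. -/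
lemma diag_comm {a : Matrix ι ι ℂ} (ha : a * Matrix.diagonal μ = Matrix.diagonal μ * a)
    (φ : ℂ →+ ℂ) : a * Matrix.diagonal (fun i => φ (μ i)) =
      Matrix.diagonal (fun i => φ (μ i)) * a := by
  ext i k
  have h1 := congrFun (congrFun ha i) k
  rw [Matrix.mul_diagonal, Matrix.diagonal_mul] at h1 ⊢
  by_cases h2 : a i k = 0
  · rw [h2, zero_mul, mul_zero]
  · have h3 : μ k = μ i := by
      rw [mul_comm] at h1
      exact mul_right_cancel₀ h2 h1
    rw [h3, mul_comm]

/-- The trace of the product with a replica. -/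
lemma Jor.trace (h : Jor x S S' ν μ) (φ : ℂ →+ ℂ) :
    (x * rep S S' μ φ).trace = ∑ i, μ i * φ (μ i) := by
  have h1 : x * rep S S' μ φ = S * ((S' * x * S) * Matrix.diagonal (fun i => φ (μ i))) * S' := by
    rw [rep]
    calc x * (S * Matrix.diagonal (fun i => φ (μ i)) * S') =
        (S * S') * x * S * Matrix.diagonal (fun i => φ (μ i)) * S' := by
          rw [h.inv', Matrix.one_mul]; simp only [Matrix.mul_assoc]
      _ = _ := by simp only [Matrix.mul_assoc]
  rw [h1, Matrix.trace_mul_comm, ← Matrix.mul_assoc, h.inv, Matrix.one_mul, h.eq, Matrix.add_mul,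
    Matrix.trace_add, Matrix.diagonal_mul_diagonal, Matrix.trace_diagonal]
  have h2 : (ν * Matrix.diagonal (fun i => φ (μ i))).trace = 0 := by
    have h3 : Commute ν (Matrix.diagonal (fun i => φ (μ i))) := diag_comm h.comm φ
    exact (Matrix.isNilpotent_trace_of_isNilpotent (h3.isNilpotent_mul_right h.nil)).eq_zero
  rw [h2, add_zero]

/-- Complex conjugation as an additive map. -/
noncomputable def cjA : ℂ →+ ℂ := (starRingEnd ℂ).toAddMonoidHom

lemma cjA_apply (z : ℂ) : cjA z = (starRingEnd ℂ) z := rfl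

/-- The trace criterion for nilpotent matrices. -/
lemma Jor.nilp (h : Jor x S S' ν μ) (h0 : (x * rep S S' μ cjA).trace = 0) : IsNilpotent x := by
  rw [h.trace] at h0
  have h1 : ∀ i, μ i = 0 := by
    have h2 : ∑ i, Complex.normSq (μ i) = 0 := by
      have h3 : (((∑ i, Complex.normSq (μ i) : ℝ)) : ℂ) = 0 := by
        rw [← h0]
        push_cast
        refine Finset.sum_congr rfl fun i _ => ?_
        rw [cjA_apply, Complex.mul_conj]
      exact_mod_cast h3
    intro i
    have h4 := (Finset.sum_eq_zero_iff_of_nonneg fun i _ => Complex.normSq_nonneg (μ i)).1 h2 i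
      (Finset.mem_univ i)
    exact Complex.normSq_eq_zero.1 h4
  have h2 : S' * x * S = ν := by
    rw [h.eq]
    have h3 : Matrix.diagonal μ = 0 := by
      rw [show μ = 0 from funext h1]
      exact Matrix.diagonal_zero
    rw [h3, zero_add]
  have h3 : x = S * ν * S' := by
    rw [← h2]
    calc x = (S * S') * x * (S * S') := by rw [h.inv', Matrix.one_mul, Matrix.mul_one]
      _ = _ := by simp only [Matrix.mul_assoc]
  obtain ⟨m, hm⟩ := h.nil
  refine ⟨m + 1, ?_⟩
  have h4 : ∀ m : ℕ, (S * ν * S') ^ (m + 1) = S * ν ^ (m + 1) * S' := by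
    intro m
    induction m with
    | zero => rw [zero_add, pow_one, pow_one]
    | succ m ih =>
      rw [pow_succ, ih]
      calc S * ν ^ (m + 1) * S' * (S * ν * S') = S * ν ^ (m + 1) * (S' * S) * ν * S' := by
            simp only [Matrix.mul_assoc]
        _ = _ := by
            rw [h.inv, Matrix.mul_one, Matrix.mul_assoc S, ← pow_succ]
  rw [h3, h4, pow_succ, hm, Matrix.zero_mul, Matrix.mul_zero, Matrix.zero_mul]

end Pool.Agent.L0h10.RQ
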